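import Pool.Agent.Run7.h113.FG.Pl
import Pool.Agent.Run7.h876.MM.Red

/-!
# Families of curves `y² = x³ + A(c) x + B(c)`: the traces of Frobenius
-/

set_option autoImplicit false

namespace Run7.h113.FG

open Finset Filter Topology NumberField IsDedekindDomain
open Run7.h113.FE
open Pool.Agent.H921R2.TatePole (nm two_le_nm below deg nm_eq below_le_nm card_above nm_summable)
open Run7.h876.MM (nv curve trace factor kv rd T Gd T_le card_pts card_kv ring_char_two two_ne disc_curve EP_factor)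

section
variable {K : Type} [Field K] [NumberField K]

open Classical in
/-- The two eigenvalues of Frobenius at `v`, if `v` does not divide the discriminant, and zeros otherwise. -/
noncomputable def frob (W : WeierstrassCurve (𝓞 K)) (v : HeightOneSpectrum (𝓞 K)) (j : Fin 2) : ℂ :=
  if W.Δ ∈ v.asIdeal then 0 else
    ((((trace W v : ℝ)) : ℂ) + (if j = 0 then 1 else -1) *
      ((Real.sqrt (4 * (nv v : ℝ) - (trace W v : ℝ) ^ 2) : ℝ) : ℂ) * Complex.I) / 2

lemma mem_disc (A B : 𝓞 K) (v : HeightOneSpectrum (𝓞 K)) :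
    (curve A B).Δ ∈ v.asIdeal ↔ -16 * (4 * (rd v (A, B)).1 ^ 3 + 27 * (rd v (A, B)).2 ^ 2) = (0 : kv v) := by
  rw [← Ideal.Quotient.eq_zero_iff_mem, disc_curve]
  unfold rd
  simp only [map_mul, map_neg, map_add, map_pow, map_ofNat]

lemma char_ne {A B : 𝓞 K} {v : HeightOneSpectrum (𝓞 K)} (h : (curve A B).Δ ∉ v.asIdeal) : ringChar (kv v) ≠ 2 := by
  intro hc
  apply h
  rw [mem_disc]
  have h2 := ring_char_two hc
  have : (-16 : kv v) = -(2 ^ 4) := by norm_num
  rw [this, h2]
  ring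

lemma trace_T (A B : 𝓞 K) (v : HeightOneSpectrum (𝓞 K)) (hc : ringChar (kv v) ≠ 2) :
    trace (curve A B) v = -T (rd v (A, B)) := by
  classical
  unfold trace
  have h5 := card_pts hc (rd v (A, B))
  have h6 : Nat.card {P : (𝓞 K ⧸ v.asIdeal) × (𝓞 K ⧸ v.asIdeal) //
      ((curve A B).map (Ideal.Quotient.mk v.asIdeal)).toAffine.Equation P.1 P.2} =
      #{P : kv v × kv v | P.2 ^ 2 = P.1 ^ 3 + (rd v (A, B)).1 * P.1 + (rd v (A, B)).2} := by
    rw [← Fintype.card_subtype, Nat.card_eq_fintype_card]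
    refine Fintype.card_congr (Equiv.subtypeEquivRight fun P => ?_)
    rw [WeierstrassCurve.Affine.equation_iff]
    simp [curve, rd]
  rw [h6, h5, card_kv]
  ring

lemma nv_nm (v : HeightOneSpectrum (𝓞 K)) : nv v = nm v := rfl

lemma trace_le (A B : 𝓞 K) (v : HeightOneSpectrum (𝓞 K)) (hc : ringChar (kv v) ≠ 2) :
    |(trace (curve A B) v : ℝ)| ≤ 2 * Real.sqrt (nv v) := by
  rw [trace_T A B v hc]
  have := T_le hc (rd v (A, B))
  rw [card_kv] at this
  push_cast
  rw [abs_neg]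
  exact this

lemma frob_good {A B : 𝓞 K} {v : HeightOneSpectrum (𝓞 K)} (h : (curve A B).Δ ∉ v.asIdeal) :
    (∀ j, ‖frob (curve A B) v j‖ = Real.sqrt (nv v)) ∧
    frob (curve A B) v 0 + frob (curve A B) v 1 = (trace (curve A B) v : ℂ) ∧
    frob (curve A B) v 0 * frob (curve A B) v 1 = (nv v : ℂ) := by
  have hc := char_ne h
  have ht := trace_le A B v hc
  have hq : (0 : ℝ) ≤ nv v := Nat.cast_nonneg _
  set a : ℝ := (trace (curve A B) v : ℝ) with ha
  have h1 : a ^ 2 ≤ 4 * nv v := by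
    have h2 : |a| ^ 2 ≤ (2 * Real.sqrt (nv v)) ^ 2 := by gcongr
    rw [sq_abs, mul_pow, Real.sq_sqrt hq] at h2
    linarith
  set w : ℝ := Real.sqrt (4 * (nv v : ℝ) - a ^ 2) with hw
  have hw2 : w ^ 2 = 4 * (nv v : ℝ) - a ^ 2 := Real.sq_sqrt (by linarith)
  have e0 : frob (curve A B) v 0 = ((a : ℂ) + (w : ℂ) * Complex.I) / 2 := by
    unfold frob
    rw [if_neg h, if_pos rfl, one_mul]
  have e1 : frob (curve A B) v 1 = ((a : ℂ) - (w : ℂ) * Complex.I) / 2 := by
    unfold frob
    rw [if_neg h, if_neg (by decide)]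
    ring
  have hn : ∀ x : ℝ, x ^ 2 = w ^ 2 → ‖((a : ℂ) + (x : ℂ) * Complex.I) / 2‖ = Real.sqrt (nv v) := by
    intro x hx
    rw [norm_div, Complex.norm_add_mul_I, hx, hw2]
    have : ‖(2 : ℂ)‖ = 2 := by simp
    rw [this]
    have e2 : a ^ 2 + (4 * (nv v : ℝ) - a ^ 2) = 2 ^ 2 * nv v := by ring
    rw [e2, Real.sqrt_mul (by norm_num), Real.sqrt_sq (by norm_num)]
    ring
  refine ⟨fun j => ?_, ?_, ?_⟩
  · fin_cases j
    · exact (congrArg _ e0).trans (hn w rfl)
    · refine (congrArg _ e1).trans ?_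
      have := hn (-w) (by ring)
      rw [← this]
      congr 2
      push_cast
      ring
  · rw [e0, e1]
    have : ((trace (curve A B) v : ℂ)) = (a : ℂ) := by rw [ha]; push_cast; rfl
    rw [this]
    ring
  · rw [e0, e1]
    have h3 : (w : ℂ) ^ 2 = 4 * (nv v : ℂ) - (a : ℂ) ^ 2 := by exact_mod_cast congrArg (Complex.ofReal) hw2
    have hI : Complex.I ^ 2 = -1 := Complex.I_sq
    linear_combination (-(w : ℂ) ^ 2 / 4) * hI + (1 / 4) * h3

lemma frob_norm (A B : 𝓞 K) (v : HeightOneSpectrum (𝓞 K)) (j : Fin 2) :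
    ‖frob (curve A B) v j‖ ≤ (nm v : ℝ) ^ (1 / 2 : ℝ) := by
  by_cases h : (curve A B).Δ ∈ v.asIdeal
  · unfold frob
    rw [if_pos h, norm_zero]
    positivity
  · rw [(frob_good h).1 j, Real.sqrt_eq_rpow]
    exact le_of_eq rfl

lemma frob_factor (A B : 𝓞 K) (v : HeightOneSpectrum (𝓞 K)) (s : ℂ) :
    factor (curve A B) v s = ∏ j, (1 - frob (curve A B) v j * (nv v : ℂ) ^ (-s))⁻¹ := by
  by_cases h : (curve A B).Δ ∈ v.asIdeal
  · unfold factor frob
    rw [if_pos h]
    simp only [if_pos h, zero_mul, sub_zero, inv_one, Finset.prod_const_one]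
  · unfold factor
    rw [if_neg h, Fin.prod_univ_two, ← mul_inv]
    congr 1
    obtain ⟨_, h2, h3⟩ := frob_good h
    rw [Run7.h876.MM.xv_sq]
    unfold Run7.h876.MM.xv
    linear_combination (-(nv v : ℂ) ^ (-s)) * (h2.symm) + ((nv v : ℂ) ^ (-s)) ^ 2 * h3.symm

lemma map_mk_congr {A B A' B' : 𝓞 K} {v : HeightOneSpectrum (𝓞 K)} (h : rd v (A, B) = rd v (A', B')) :
    (curve A B).map (Ideal.Quotient.mk v.asIdeal) = (curve A' B').map (Ideal.Quotient.mk v.asIdeal) := by
  have h1 : Ideal.Quotient.mk v.asIdeal A = Ideal.Quotient.mk v.asIdeal A' := congrArg Prod.fst h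
  have h2 : Ideal.Quotient.mk v.asIdeal B = Ideal.Quotient.mk v.asIdeal B' := congrArg Prod.snd h
  unfold curve WeierstrassCurve.map
  simp [h1, h2]

lemma frob_congr {A B A' B' : 𝓞 K} {v : HeightOneSpectrum (𝓞 K)} (h : rd v (A, B) = rd v (A', B')) :
    frob (curve A B) v = frob (curve A' B') v := by
  funext j
  have h1 : trace (curve A B) v = trace (curve A' B') v := by
    unfold trace
    rw [map_mk_congr h]
  have h2 : (curve A B).Δ ∈ v.asIdeal ↔ (curve A' B').Δ ∈ v.asIdeal := by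
    rw [mem_disc, mem_disc, h]
  unfold frob
  rw [h1]
  by_cases h3 : (curve A B).Δ ∈ v.asIdeal
  · rw [if_pos h3, if_pos (h2.mp h3)]
  · rw [if_neg h3, if_neg (fun h4 => h3 (h2.mpr h4))]

end

section
variable {K : Type} [Field K] [NumberField K] {ι : Type}

/-- The value of a polynomial at an integer vector. -/
noncomputable def ev (c : ι → ℤ) (A : MvPolynomial ι (𝓞 K)) : 𝓞 K := MvPolynomial.eval (fun i => ((c i : ℤ) : 𝓞 K)) A

/-- The member `c` of the family. -/
noncomputable def fam (A B : MvPolynomial ι (𝓞 K)) (c : ι → ℤ) : WeierstrassCurve (𝓞 K) := curve (ev c A) (ev c B)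

/-- The residues of the coefficients. -/
noncomputable def res (A B : MvPolynomial ι (𝓞 K)) (v : HeightOneSpectrum (𝓞 K)) (c : ι → ℤ) : kv v × kv v :=
  rd v (ev c A, ev c B)

/-- A lift of a vector modulo `p`. -/
def lft {p : Nat.Primes} (r : ι → ZMod p) : ι → ℤ := fun i => ((r i).val : ℤ)

lemma int_mem {v : HeightOneSpectrum (𝓞 K)} {p : Nat.Primes} (hv : below v = p) (n : ℤ) :
    ((n : ℤ) : 𝓞 K) ∈ v.asIdeal ↔ ((p : ℕ) : ℤ) ∣ n := by
  have hp := (nm_eq v).2.2
  rw [hv] at hp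
  constructor
  · intro hn
    by_contra hd
    have hprime : Prime (((p : ℕ) : ℤ)) := Nat.prime_iff_prime_int.mp p.2
    have hcop : IsCoprime (((p : ℕ) : ℤ)) n := (hprime.coprime_iff_not_dvd).mpr hd
    obtain ⟨x, y, hxy⟩ := hcop
    have h1 : (1 : 𝓞 K) ∈ v.asIdeal := by
      have e : (1 : 𝓞 K) = (x : 𝓞 K) * ((p : ℕ) : 𝓞 K) + (y : 𝓞 K) * (n : 𝓞 K) := by
        have := congrArg (Int.cast : ℤ → 𝓞 K) hxy
        push_cast at this
        exact this.symm
      rw [e]
      exact v.asIdeal.add_mem (v.asIdeal.mul_mem_left _ hp) (v.asIdeal.mul_mem_left _ hn)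
    exact v.isPrime.ne_top ((Ideal.eq_top_iff_one _).mpr h1)
  · rintro ⟨k, rfl⟩
    push_cast
    exact v.asIdeal.mul_mem_right _ hp

lemma ev_congr {v : HeightOneSpectrum (𝓞 K)} {p : Nat.Primes} (hv : below v = p) {c c' : ι → ℤ}
    (h : ∀ i, ((p : ℕ) : ℤ) ∣ c i - c' i)
    (A : MvPolynomial ι (𝓞 K)) : Ideal.Quotient.mk v.asIdeal (ev c A) = Ideal.Quotient.mk v.asIdeal (ev c' A) := by
  have h1 : (Ideal.Quotient.mk v.asIdeal).comp (MvPolynomial.eval (fun i => ((c i : ℤ) : 𝓞 K))) =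
      (Ideal.Quotient.mk v.asIdeal).comp (MvPolynomial.eval (fun i => ((c' i : ℤ) : 𝓞 K))) := by
    refine MvPolynomial.ringHom_ext (fun r => by simp) fun i => ?_
    simp only [RingHom.coe_comp, Function.comp_apply, MvPolynomial.eval_X]
    rw [Ideal.Quotient.eq, ← Int.cast_sub]
    exact (int_mem hv _).mpr (h i)
  exact congrArg (fun f => f A) h1

lemma res_congr (A B : MvPolynomial ι (𝓞 K)) {v : HeightOneSpectrum (𝓞 K)} {p : Nat.Primes} (hv : below v = p)
    {c c' : ι → ℤ} (h : ∀ i, ((p : ℕ) : ℤ) ∣ c i - c' i) : res A B v c = res A B v c' := by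
  unfold res rd
  exact Prod.ext (ev_congr hv h A) (ev_congr hv h B)

lemma lft_red (p : Nat.Primes) (c : ι → ℤ) (i : ι) :
    ((p : ℕ) : ℤ) ∣ lft (redP c p) i - c i := by
  rw [← (ZMod.intCast_zmod_eq_zero_iff_dvd _ _), Int.cast_sub, sub_eq_zero]
  unfold lft redP Pool.Agent.Y722.HS.red
  push_cast
  rw [ZMod.natCast_val, ZMod.cast_id]

/-- The local data of the family. -/
noncomputable def al (A B : MvPolynomial ι (𝓞 K)) (p : Nat.Primes) (r : ι → ZMod p) (v : HeightOneSpectrum (𝓞 K))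
    (j : Fin 2) : ℂ :=
  frob (fam A B (lft r)) v j

lemma al_red (A B : MvPolynomial ι (𝓞 K)) {v : HeightOneSpectrum (𝓞 K)} {p : Nat.Primes} (hv : below v = p)
    (c : ι → ℤ) (j : Fin 2) : al A B p (redP c p) v j = frob (fam A B c) v j := by
  unfold al fam
  exact congrFun (frob_congr (res_congr A B hv (lft_red p c))) j

/-- The family contains the direction `(0, β)`. -/
def Vertical [DecidableEq ι] (A B : MvPolynomial ι (𝓞 K)) (i₀ : ι) (β : 𝓞 K) : Prop :=
  ∀ (c : ι → ℤ) (t : ℤ), ev (c + Pi.single i₀ t) A = ev c A ∧ ev (c + Pi.single i₀ t) B = ev c B + (t : 𝓞 K) * β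

variable [Fintype ι] [DecidableEq ι] {A B : MvPolynomial ι (𝓞 K)} {i₀ : ι} {β : 𝓞 K}

lemma card_kv_p {v : HeightOneSpectrum (𝓞 K)} {p : Nat.Primes} (hv : below v = p) (hd : deg v = 1) :
    nv v = (p : ℕ) := by
  rw [nv_nm, (nm_eq v).1, hd, pow_one, hv]

/-- Averaging over the vertical direction. -/
lemma vert_avg (hV : Vertical A B i₀ β) {v : HeightOneSpectrum (𝓞 K)} {p : Nat.Primes} (hv : below v = p)
    (hd : deg v = 1) (hβ : β ∉ v.asIdeal) (F : kv v × kv v → ℂ) :
    ((p : ℕ) : ℂ) * ∑ r : ι → ZMod p, F (res A B v (lft r)) =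
      ∑ r : ι → ZMod p, ∑ y : kv v, F ((res A B v (lft r)).1, y) := by
  classical
  have hcardk := card_kv_p hv hd
  have h1 : ∀ t : ZMod p, ∑ r : ι → ZMod p, F (res A B v (lft r)) =
      ∑ r : ι → ZMod p, F (res A B v (lft (r + Pi.single i₀ t))) := by
    intro t
    exact (Equiv.sum_comp (Equiv.addRight (Pi.single i₀ t : ι → ZMod p)) (fun r => F (res A B v (lft r)))).symm
  have h2 : ((p : ℕ) : ℂ) * ∑ r : ι → ZMod p, F (res A B v (lft r)) =
      ∑ t : ZMod p, ∑ r : ι → ZMod p, F (res A B v (lft (r + Pi.single i₀ t))) := by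
    rw [← Finset.sum_congr rfl (fun t _ => h1 t), Finset.sum_const, Finset.card_univ, ZMod.card, nsmul_eq_mul]
  rw [h2, Finset.sum_comm]
  refine Finset.sum_congr rfl fun r _ => ?_
  -- the residues
  have h3 : ∀ t : ZMod p, res A B v (lft (r + Pi.single i₀ t)) =
      ((res A B v (lft r)).1, (res A B v (lft r)).2 + ((t.val : ℕ) : kv v) * Ideal.Quotient.mk v.asIdeal β) := by
    intro t
    have e1 : res A B v (lft (r + Pi.single i₀ t)) = res A B v (lft r + Pi.single i₀ (t.val : ℤ)) := by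
      apply res_congr A B hv
      intro i
      rw [← (ZMod.intCast_zmod_eq_zero_iff_dvd _ _), Int.cast_sub, sub_eq_zero]
      unfold lft
      by_cases hi : i = i₀
      · subst hi
        simp
      · simp [Pi.single_eq_of_ne hi]
    rw [e1]
    unfold res rd
    rw [(hV (lft r) (t.val : ℤ)).1, (hV (lft r) (t.val : ℤ)).2]
    simp only [map_add, map_mul, Int.cast_natCast, map_natCast]
  simp only [h3]
  -- bijectivity
  have hβ' : Ideal.Quotient.mk v.asIdeal β ≠ 0 := fun h => hβ (Ideal.Quotient.eq_zero_iff_mem.mp h)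
  set e : ZMod p → kv v := fun t => (res A B v (lft r)).2 + ((t.val : ℕ) : kv v) * Ideal.Quotient.mk v.asIdeal β
    with he
  have hinj : Function.Injective e := by
    intro t t' h
    have h4 : ((t.val : ℕ) : kv v) = ((t'.val : ℕ) : kv v) := mul_right_cancel₀ hβ' (add_left_cancel h)
    have h5 : (((t.val : ℤ) - (t'.val : ℤ) : ℤ) : 𝓞 K) ∈ v.asIdeal := by
      rw [← Ideal.Quotient.eq_zero_iff_mem]
      push_cast
      rw [map_sub, map_natCast, map_natCast, sub_eq_zero]
      exact h4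
    have h6 := (int_mem hv _).mp h5
    rw [← (ZMod.intCast_zmod_eq_zero_iff_dvd _ _), Int.cast_sub, sub_eq_zero] at h6
    push_cast at h6
    rw [ZMod.natCast_val, ZMod.natCast_val, ZMod.cast_id, ZMod.cast_id] at h6
    exact h6
  have hcard : Fintype.card (ZMod p) = Fintype.card (kv v) := by
    rw [ZMod.card, card_kv, hcardk]
  have hbij : Function.Bijective e := (Fintype.bijective_iff_injective_and_card e).mpr ⟨hinj, hcard⟩
  exact hbij.sum_comp (fun y => F ((res A B v (lft r)).1, y))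

lemma sum_T_vert {k : Type} [Field k] [Fintype k] [DecidableEq k] (hk : ringChar k ≠ 2) (a : k) :
    ∑ y : k, T (a, y) = 0 := by
  unfold T
  rw [Finset.sum_comm]
  refine Finset.sum_eq_zero fun x _ => ?_
  have h1 := Equiv.sum_comp (Equiv.addLeft (x ^ 3 + a * x)) (fun y => quadraticChar k y)
  simp only [Equiv.coe_addLeft] at h1
  rw [h1]
  exact quadraticChar_sum_zero hk

lemma card_sing_vert {k : Type} [Field k] [DecidableEq k] [Fintype k] (h3 : (27 : k) ≠ 0) (a : k) :
    (Finset.univ.filter fun y : k => 4 * a ^ 3 + 27 * y ^ 2 = 0).card ≤ 2 := by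
  set f : Polynomial k := Polynomial.C 27 * Polynomial.X ^ 2 + Polynomial.C (4 * a ^ 3) with hf
  have hdeg : f.natDegree = 2 := by
    rw [hf]
    compute_degree!
  have hf0 : f ≠ 0 := by
    intro h
    rw [h, Polynomial.natDegree_zero] at hdeg
    omega
  have h1 : (Finset.univ.filter fun y : k => 4 * a ^ 3 + 27 * y ^ 2 = 0) ⊆ f.roots.toFinset := by
    intro y hy
    rw [Finset.mem_filter] at hy
    rw [Multiset.mem_toFinset, Polynomial.mem_roots hf0, Polynomial.IsRoot.def, hf]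
    simp only [Polynomial.eval_add, Polynomial.eval_mul, Polynomial.eval_C, Polynomial.eval_pow, Polynomial.eval_X]
    rw [← hy.2]
    ring
  calc _ ≤ f.roots.toFinset.card := Finset.card_le_card h1
    _ ≤ Multiset.card f.roots := Multiset.toFinset_card_le _
    _ ≤ f.natDegree := Polynomial.card_roots' f
    _ = 2 := hdeg

/-- The mean of the traces in the family. -/
lemma mean_good (hV : Vertical A B i₀ β) {v : HeightOneSpectrum (𝓞 K)} {p : Nat.Primes} (hv : below v = p)
    (hd : deg v = 1) (hβ : β ∉ v.asIdeal) (h6 : 3 < (p : ℕ)) : ‖EC p (fun r => ∑ j, al A B p r v j)‖ ≤ 4 := by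
  classical
  have hcardk := card_kv_p hv hd
  have hp0 : (0 : ℝ) < ((p : ℕ) : ℝ) := by exact_mod_cast p.2.pos
  have hmemn : ∀ n : ℕ, ((n : ℕ) : kv v) = 0 → (p : ℕ) ∣ n := by
    intro n hn
    have h1 : ((n : ℤ) : 𝓞 K) ∈ v.asIdeal := by
      rw [← Ideal.Quotient.eq_zero_iff_mem, Int.cast_natCast, map_natCast]
      exact hn
    exact_mod_cast (int_mem hv _).mp h1
  have h2k : (2 : kv v) ≠ 0 := by
    intro h
    have := Nat.le_of_dvd (by norm_num) (hmemn 2 (by exact_mod_cast h))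
    omega
  have hc : ringChar (kv v) ≠ 2 := fun h => h2k (ring_char_two h)
  have h3k : (27 : kv v) ≠ 0 := by
    intro h
    have h1 := hmemn 27 (by exact_mod_cast h)
    have h2 : (p : ℕ) ∣ 3 := p.2.dvd_of_dvd_pow (n := 3) (by norm_num; exact h1)
    have := Nat.le_of_dvd (by norm_num) h2
    omega
  have h16 : (-16 : kv v) ≠ 0 := by
    have : (-16 : kv v) = -(2 ^ 4) := by norm_num
    rw [this, neg_ne_zero]
    exact pow_ne_zero _ h2k
  -- the local function
  set F1 : kv v × kv v → ℂ := fun x => -(T x : ℂ) with hF1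
  set F2 : kv v × kv v → ℂ := fun x => if 4 * x.1 ^ 3 + 27 * x.2 ^ 2 = 0 then (T x : ℂ) else 0 with hF2
  have hal : ∀ r : ι → ZMod p, ∑ j, al A B p r v j =
      F1 (res A B v (lft r)) + F2 (res A B v (lft r)) := by
    intro r
    rw [Fin.sum_univ_two]
    have hmem := mem_disc (ev (lft r) A) (ev (lft r) B) v
    by_cases h : (fam A B (lft r)).Δ ∈ v.asIdeal
    · have h1 : 4 * (res A B v (lft r)).1 ^ 3 + 27 * (res A B v (lft r)).2 ^ 2 = 0 :=
        (mul_eq_zero.mp (hmem.mp h)).resolve_left h16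
      simp only [hF1, hF2, if_pos h1, al, frob, if_pos h]
      ring
    · have h1 : ¬ 4 * (res A B v (lft r)).1 ^ 3 + 27 * (res A B v (lft r)).2 ^ 2 = 0 := fun h1 =>
        h (hmem.mpr (mul_eq_zero.mpr (Or.inr h1)))
      simp only [hF1, hF2, if_neg h1]
      unfold al
      rw [show fam A B (lft r) = curve (ev (lft r) A) (ev (lft r) B) from rfl, (frob_good h).2.1, trace_T _ _ _ hc]
      push_cast
      unfold res
      ring
  have e1 : EC p (fun r => ∑ j, al A B p r v j) =
      EC p (fun r => F1 (res A B v (lft r))) + EC p (fun r => F2 (res A B v (lft r))) := by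
    rw [← EC_add]
    congr 1
    funext r
    exact hal r
  have hpc : ((p : ℕ) : ℂ) ≠ 0 := by exact_mod_cast hp0.ne'
  have t1 : EC p (fun r => F1 (res A B v (lft r))) = 0 := by
    unfold EC
    have h1 := vert_avg hV hv hd hβ F1
    have h2 : ∑ r : ι → ZMod p, ∑ y : kv v, F1 ((res A B v (lft r)).1, y) = 0 := by
      refine Finset.sum_eq_zero fun r _ => ?_
      simp only [hF1]
      rw [Finset.sum_neg_distrib]
      have h3 := sum_T_vert hc (res A B v (lft r)).1
      have h4 : ∑ y : kv v, (T ((res A B v (lft r)).1, y) : ℂ) = 0 := by exact_mod_cast congrArg (Int.cast : ℤ → ℂ) h3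
      rw [h4, neg_zero]
    rw [h2] at h1
    rw [(mul_eq_zero.mp h1).resolve_left hpc, zero_div]
  have t2 : ‖EC p (fun r => F2 (res A B v (lft r)))‖ ≤ 4 := by
    have h1 := vert_avg hV hv hd hβ F2
    have hq : (nv v : ℝ) = ((p : ℕ) : ℝ) := by exact_mod_cast hcardk
    have h2 : ∀ r : ι → ZMod p, ‖∑ y : kv v, F2 ((res A B v (lft r)).1, y)‖ ≤ 4 * ((p : ℕ) : ℝ) := by
      intro r
      refine (norm_sum_le _ _).trans ?_
      have h3 : ∀ y : kv v, ‖F2 ((res A B v (lft r)).1, y)‖ ≤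
          if 4 * (res A B v (lft r)).1 ^ 3 + 27 * y ^ 2 = 0 then 2 * ((p : ℕ) : ℝ) else 0 := by
        intro y
        simp only [hF2]
        split_ifs with h4
        · have h5 := T_le hc ((res A B v (lft r)).1, y)
          rw [card_kv] at h5
          have h6 : ‖((T ((res A B v (lft r)).1, y) : ℤ) : ℂ)‖ = |(T ((res A B v (lft r)).1, y) : ℝ)| := by
            rw [← Complex.ofReal_intCast, Complex.norm_real, Real.norm_eq_abs]
          rw [h6]
          refine h5.trans ?_
          rw [hq]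
          have h7 : Real.sqrt ((p : ℕ) : ℝ) ≤ ((p : ℕ) : ℝ) := by
            rw [Real.sqrt_le_left hp0.le]
            have : (1 : ℝ) ≤ ((p : ℕ) : ℝ) := by exact_mod_cast p.2.one_lt.le
            nlinarith
          linarith
        · rw [norm_zero]
      refine (Finset.sum_le_sum fun y _ => h3 y).trans ?_
      rw [← Finset.sum_filter, Finset.sum_const, nsmul_eq_mul]
      have h4 := card_sing_vert h3k (res A B v (lft r)).1
      have h5 : (((Finset.univ.filter fun y : kv v => 4 * (res A B v (lft r)).1 ^ 3 + 27 * y ^ 2 = 0).card : ℕ) : ℝ) ≤ 2 := by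
        exact_mod_cast h4
      calc _ ≤ (2 : ℝ) * (2 * ((p : ℕ) : ℝ)) := by gcongr
        _ = _ := by ring
    unfold EC
    rw [norm_div, norm_pow, Complex.norm_natCast, div_le_iff₀ (by positivity)]
    have h3 : ((p : ℕ) : ℝ) * ‖∑ r : ι → ZMod p, F2 (res A B v (lft r))‖ ≤
        ((p : ℕ) : ℝ) * (4 * ((p : ℕ) : ℝ) ^ Fintype.card ι) := by
      have h4 : ‖((p : ℕ) : ℂ) * ∑ r : ι → ZMod p, F2 (res A B v (lft r))‖ =
          ((p : ℕ) : ℝ) * ‖∑ r : ι → ZMod p, F2 (res A B v (lft r))‖ := by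
        rw [norm_mul, Complex.norm_natCast]
      rw [← h4, h1]
      refine (norm_sum_le _ _).trans ((Finset.sum_le_sum fun r _ => h2 r).trans (le_of_eq ?_))
      rw [Finset.sum_const, nsmul_eq_mul, Finset.card_univ, card_vec]
      push_cast
      ring
    exact le_of_mul_le_mul_left h3 hp0
  rw [e1, t1, zero_add]
  exact t2

end

end Run7.h113.FG
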