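import Pool.Agent.Run7.h113.FG.Lim

/-!
# Large deviations for nearly equidistributed integer vectors
-/

set_option autoImplicit false

namespace Run7.h113.FG

open Finset MeasureTheory ProbabilityTheory Filter Topology
open Pool.Agent.Y722.HS (EB EM red)
open Run7.h113.FE Run7.h113.FE.Loc
open scoped ENNReal NNReal

variable {ι : Type} [Fintype ι] [DecidableEq ι] {M : ℝ}

/-- **Large deviations in the box.** -/
theorem tail_samp (L : Loc ι M) (hM : 0 < M) : ∃ C : ℝ, 0 ≤ C ∧ ∀ V : ℝ, C ≤ V → ∀ H : ℕ, 2 ≤ H → ∀ s : ℂ,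
    1 / Real.log H ≤ s.re → ∀ P : Measure (ι → ℤ), Eqd P H → ∀ A : Set (ι → ℤ), (∀ c ∈ A, V ≤ ‖L.Q (redP c) s‖) →
    P.real A ≤ Real.exp (-Real.exp (Real.exp ((V - C) / M))) + C / Real.log H := by
  obtain ⟨C, hC0, hC⟩ := L.tail hM
  have hLC := L.C0
  set k₀ := Fintype.card ι with hk₀
  set k := k₀ + 1 with hk
  have hl2 : 0 < Real.log 2 := Real.log_pos (by norm_num)
  set B : ℝ := 2 * (L.C ^ 2 * (6 + 2 ^ k₀)) with hB
  have hB0 : 0 < B := by positivity
  set C' : ℝ := C + M * (k * Real.log 2) + 1 + 64 * L.C + 4 * B + 2 with hC'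
  refine ⟨C', by positivity, ?_⟩
  intro V hV H hH s hs P hP A hA
  have hprob := hP.prob
  have hHr : (2 : ℝ) ≤ H := by exact_mod_cast hH
  have hlogH : 0 < Real.log H := Real.log_pos (by linarith)
  -- the parameters
  set y := Nat.sqrt (Nat.sqrt H) with hy
  set z := min (Nat.log 4 H) y with hz
  rcases Nat.lt_or_ge H 4 with h4 | h4
  · -- small `H`
    have h1 : P.real A ≤ 1 := measureReal_le_one
    have h2 : Real.log H ≤ 2 := by
      have h3 : (H : ℝ) ≤ 4 := by exact_mod_cast h4.le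
      calc Real.log H ≤ Real.log 4 := Real.log_le_log (by linarith) h3
        _ = 2 * Real.log 2 := by rw [show (4 : ℝ) = 2 ^ 2 by norm_num, Real.log_pow]; norm_num
        _ ≤ 2 := by have := Real.log_two_lt_d9; linarith
    have h3 : 1 ≤ C' / Real.log H := by
      rw [le_div_iff₀ hlogH, one_mul]
      refine h2.trans ?_
      have : 0 ≤ C + M * (k * Real.log 2) + 1 + 64 * L.C + 4 * B := by positivity
      rw [hC']
      linarith
    have h5 := Real.exp_pos (-Real.exp (Real.exp ((V - C') / M)))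
    linarith
  have hz1' : 1 ≤ Nat.log 4 H := Nat.le_log_of_pow_le (by norm_num) (by omega)
  have hz4 : 4 ^ z ≤ H := (Nat.pow_le_pow_right (by norm_num) (min_le_left _ _)).trans (Nat.pow_log_le_self 4 (by omega))
  have hzH : H < 4 ^ (Nat.log 4 H + 1) := Nat.lt_pow_succ_log_self (by norm_num) H
  obtain ⟨n1, n2⟩ := nice_y H
  rw [← hy] at n1 n2
  have hy1 : 1 ≤ y := by
    rw [hy, Nat.le_sqrt', Nat.le_sqrt']
    omega
  have hz1 : 1 ≤ z := le_min hz1' hy1
  have hzy' : z ≤ y := min_le_right _ _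
  have hzr : (1 : ℝ) ≤ z := by exact_mod_cast hz1
  have hlogz : Real.log H ≤ 4 * z := by
    rw [hz, Nat.cast_min, mul_min_of_nonneg _ _ (by norm_num : (0 : ℝ) ≤ 4), le_min_iff]
    have hzr' : (1 : ℝ) ≤ (Nat.log 4 H : ℕ) := by exact_mod_cast hz1'
    constructor
    · have h1 : (H : ℝ) ≤ 4 ^ (Nat.log 4 H + 1) := by exact_mod_cast hzH.le
      calc Real.log H ≤ Real.log (4 ^ (Nat.log 4 H + 1)) := Real.log_le_log (by linarith) h1
        _ = ((Nat.log 4 H : ℕ) + 1 : ℝ) * Real.log 4 := by rw [Real.log_pow]; push_cast; rfl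
        _ = ((Nat.log 4 H : ℕ) + 1 : ℝ) * (2 * Real.log 2) := by
            rw [show (4 : ℝ) = 2 ^ 2 by norm_num, Real.log_pow]; norm_num
        _ ≤ ((Nat.log 4 H : ℕ) + 1 : ℝ) * 2 := by
            have := Real.log_two_lt_d9
            have : 2 * Real.log 2 ≤ 2 := by linarith
            gcongr
        _ ≤ 4 * (Nat.log 4 H : ℕ) := by linarith
    · have h1 : (H : ℝ) ≤ ((y : ℝ) + 1) ^ 4 := by exact_mod_cast n2.le
      have h0 : (0 : ℝ) ≤ y := Nat.cast_nonneg _
      calc Real.log H ≤ Real.log (((y : ℝ) + 1) ^ 4) := Real.log_le_log (by linarith) h1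
        _ = 4 * Real.log ((y : ℝ) + 1) := by rw [Real.log_pow]; norm_num
        _ ≤ 4 * y := by
            have := Real.log_le_sub_one_of_pos (show (0 : ℝ) < y + 1 by linarith)
            linarith
  have hε : 0 < 1 / Real.log H := by positivity
  -- replace the distance by a number at most 1
  have hlogy : Real.log H ≤ 4 * Real.log (y + 1) := by
    have h1 : (H : ℝ) ≤ ((y : ℝ) + 1) ^ 4 := by exact_mod_cast n2.le
    calc Real.log H ≤ Real.log (((y : ℝ) + 1) ^ 4) := Real.log_le_log (by linarith) h1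
      _ = _ := by rw [Real.log_pow]; norm_num
  have hlogy0 : 0 < Real.log ((y : ℝ) + 1) := by linarith
  have hl4 : 1 ≤ Real.log H := by
    have h1 : Real.exp 1 ≤ H := by
      have h2 : (4 : ℝ) ≤ H := by exact_mod_cast h4
      have := Real.exp_one_lt_d9
      linarith
    rw [← Real.log_exp 1]
    exact Real.log_le_log (Real.exp_pos 1) h1
  have hε1 : 1 / Real.log H ≤ 1 := by
    rw [div_le_one hlogH]
    exact hl4
  have htail : ∀ c : ι → ℤ, ‖L.Q (redP c) s - L.sm (pr y) (redP c) s‖ ≤ 64 * L.C := by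
    intro c
    refine (L.Q_tail (redP c) hε hε1 hs hy1).trans ?_
    have h1 : 16 / (1 / Real.log H * Real.log (y + 1)) ≤ 64 := by
      rw [div_le_iff₀ (by positivity)]
      have : 64 * (1 / Real.log H * Real.log (y + 1)) = 16 * (4 * Real.log (y + 1)) / Real.log H := by ring
      rw [this, le_div_iff₀ hlogH]
      linarith
    calc L.C * (16 / (1 / Real.log H * Real.log (y + 1))) ≤ L.C * 64 := by gcongr
      _ = _ := by ring
  have hs0 : 0 ≤ s.re := hε.le.trans hs
  have hsH : s ∈ HP := by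
    change -(1 / 2) < s.re
    linarith
  -- the middle primes
  set S : Finset Nat.Primes := pr y \ pr z with hS
  have hSz : ∀ p ∈ S, z < (p : ℕ) := by
    intro p hp
    have := (Finset.mem_sdiff.mp hp).2
    rw [mem_pr] at this
    omega
  have hSy : ∀ p ∈ S, ((p : ℕ) : ℝ) ≤ y := fun p hp => by exact_mod_cast mem_pr.mp (Finset.mem_sdiff.mp hp).1
  have hyr : (1 : ℝ) ≤ y := by exact_mod_cast hy1
  have hHy : (y : ℝ) ^ 4 ≤ H := by exact_mod_cast n1
  have hmid : ∫ c, ‖∑ p ∈ S, L.g p (redP c p) s‖ ^ 2 ∂P ≤ B / z := by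
    have h1 := hP.rnd.sq_complex S (by
      intro p hp q hq
      have h1 := hSy p hp
      have h2 := hSy q hq
      calc ((p : ℕ) : ℝ) * ((q : ℕ) : ℝ) ≤ y * y := by gcongr
        _ ≤ (y : ℝ) ^ 4 := by
            calc (y : ℝ) * y = (y : ℝ) ^ 2 := by ring
              _ ≤ _ := pow_le_pow_right₀ hyr (by norm_num)
        _ ≤ 2 * H + 1 := by linarith) (fun p r => L.g p r s) (fun p => L.C / ((p : ℕ) : ℝ))
      (fun p => L.C * ((p : ℕ) : ℝ) ^ (-(3 / 2 : ℝ))) (fun p _ r => by
        refine (L.bound p r s hsH).trans ?_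
        have hp1 : (1 : ℝ) ≤ ((p : ℕ) : ℝ) := by exact_mod_cast p.2.one_lt.le
        have h4 : ((p : ℕ) : ℝ) ^ (-1 - s.re) ≤ ((p : ℕ) : ℝ) ^ (-1 : ℝ) :=
          Real.rpow_le_rpow_of_exponent_le hp1 (by linarith)
        rw [Real.rpow_neg_one] at h4
        rw [div_eq_mul_inv]
        gcongr) (fun p _ => by
        refine (L.mean p s hsH).trans ?_
        have hp1 : (1 : ℝ) ≤ ((p : ℕ) : ℝ) := by exact_mod_cast p.2.one_lt.le
        gcongr
        linarith)
    refine h1.trans ?_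
    have t1 : ∑ p ∈ S, (L.C / ((p : ℕ) : ℝ)) ^ 2 ≤ L.C ^ 2 * (2 / (z : ℝ)) := by
      have e : ∀ p ∈ S, (L.C / ((p : ℕ) : ℝ)) ^ 2 = L.C ^ 2 * (1 / ((p : ℕ) : ℝ) ^ 2) := fun p _ => by
        rw [div_pow]; ring
      have e2 : ∑ p ∈ S, 1 / ((p : ℕ) : ℝ) ^ 2 = ∑ n ∈ S.image (fun p : Nat.Primes => (p : ℕ)), 1 / (n : ℝ) ^ 2 := by
        rw [Finset.sum_image]
        intro p _ q _ h
        exact Subtype.ext h
      rw [Finset.sum_congr rfl e, ← Finset.mul_sum, e2]
      apply mul_le_mul_of_nonneg_left _ (by positivity)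
      apply Run7.h113.LE.sum_sq_tail hz1
      intro p hp
      obtain ⟨q, hq, rfl⟩ := Finset.mem_image.mp hp
      exact (hSz q hq).le
    have t2 : (∑ p ∈ S, L.C * ((p : ℕ) : ℝ) ^ (-(3 / 2 : ℝ))) ^ 2 ≤ L.C ^ 2 * (4 / (z : ℝ)) := by
      rw [← Finset.mul_sum, mul_pow]
      apply mul_le_mul_of_nonneg_left _ (by positivity)
      have h2 := sum_three_half hz1 S hSz
      have h3 : 0 ≤ ∑ p ∈ S, ((p : ℕ) : ℝ) ^ (-(3 / 2 : ℝ)) := Finset.sum_nonneg fun p _ => by positivity
      calc _ ≤ (2 / Real.sqrt z) ^ 2 := pow_le_pow_left₀ h3 h2 2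
        _ = 4 / z := by rw [div_pow, Real.sq_sqrt (by linarith)]; norm_num
    have t3 : (2 : ℝ) ^ k₀ / (2 * H + 1) * (∑ p ∈ S, ((p : ℕ) : ℝ) * (L.C / ((p : ℕ) : ℝ))) ^ 2 ≤
        L.C ^ 2 * (2 ^ k₀ / (z : ℝ)) := by
      have e : ∀ p ∈ S, ((p : ℕ) : ℝ) * (L.C / ((p : ℕ) : ℝ)) = L.C := fun p _ => by
        have : (0 : ℝ) < ((p : ℕ) : ℝ) := by exact_mod_cast p.2.pos
        field_simp
      rw [Finset.sum_congr rfl e, Finset.sum_const, nsmul_eq_mul]
      have hc : ((S.card : ℕ) : ℝ) ≤ y := by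
        have h1 : S.card ≤ (pr y).card := Finset.card_le_card Finset.sdiff_subset
        have h2 : ((pr y).image fun p : Nat.Primes => (p : ℕ)) ⊆ Finset.Icc 1 y := by
          intro n hn
          obtain ⟨p, hp, rfl⟩ := Finset.mem_image.mp hn
          rw [mem_pr] at hp
          exact Finset.mem_Icc.mpr ⟨p.2.one_lt.le, hp⟩
        have h3 := Finset.card_le_card h2
        have h4 := Finset.card_image_of_injective (pr y) (f := fun p : Nat.Primes => (p : ℕ))
          (fun a b h => Subtype.ext h)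
        rw [h4, Nat.card_Icc] at h3
        have h5 : S.card ≤ y := by omega
        exact_mod_cast h5
      have hzy : (z : ℝ) * (y : ℝ) ^ 2 ≤ H := by
        have h1 : (z : ℝ) ^ 2 ≤ H := by
          have h2 : z ^ 2 ≤ 4 ^ z := by
            have h3 : z < 2 ^ z := Nat.lt_two_pow_self
            calc z ^ 2 ≤ (2 ^ z) ^ 2 := Nat.pow_le_pow_left h3.le 2
              _ = 4 ^ z := by rw [← pow_mul, mul_comm, pow_mul]; norm_num
          exact_mod_cast h2.trans hz4
        have h2 : ((z : ℝ) * (y : ℝ) ^ 2) ^ 2 ≤ (H : ℝ) ^ 2 := by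
          have e1 : ((z : ℝ) * (y : ℝ) ^ 2) ^ 2 = (z : ℝ) ^ 2 * (y : ℝ) ^ 4 := by ring
          rw [e1, sq (H : ℝ)]
          gcongr
        exact le_of_sq_le_sq h2 (by linarith)
      have hfrac : (y : ℝ) ^ 2 / (2 * H + 1) ≤ 1 / z := by
        rw [div_le_div_iff₀ (by linarith) (by linarith)]
        linarith
      calc (2 : ℝ) ^ k₀ / (2 * H + 1) * (S.card * L.C) ^ 2 ≤ (2 : ℝ) ^ k₀ / (2 * H + 1) * (y * L.C) ^ 2 := by gcongr
        _ = L.C ^ 2 * 2 ^ k₀ * ((y : ℝ) ^ 2 / (2 * H + 1)) := by ring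
        _ ≤ L.C ^ 2 * 2 ^ k₀ * (1 / z) := mul_le_mul_of_nonneg_left hfrac (by positivity)
        _ = _ := by ring
    calc 2 * (∑ p ∈ S, (L.C / ((p : ℕ) : ℝ)) ^ 2 + (∑ p ∈ S, L.C * ((p : ℕ) : ℝ) ^ (-(3 / 2 : ℝ))) ^ 2 +
          2 ^ Fintype.card ι / (2 * H + 1) * (∑ p ∈ S, ((p : ℕ) : ℝ) * (L.C / ((p : ℕ) : ℝ))) ^ 2)
        ≤ 2 * (L.C ^ 2 * (2 / z) + L.C ^ 2 * (4 / z) + L.C ^ 2 * (2 ^ k₀ / z)) := by
          gcongr
      _ = B / z := by rw [hB]; ring
  -- the small primes
  set V' : ℝ := V - 1 - 64 * L.C with hV'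
  have hVC : C ≤ V' := by
    have : 0 ≤ M * (k * Real.log 2) + 4 * B + 2 := by positivity
    rw [hV']
    linarith
  classical
  set F : Om ι → ℝ := fun ω => if V' ≤ ‖L.sm (pr z) ω s‖ then 1 else 0 with hF
  have hdep : Dep (pr z) F := L.dep_sm (pr z) (fun f => if V' ≤ ‖f s‖ then (1 : ℝ) else 0)
  have hNNz : NN (pr z) ≤ 2 * H + 1 := by
    have := NN_pr z
    omega
  have hsmall : ∫ c, F (redP c) ∂P ≤ Real.exp (-Real.exp (Real.exp ((V - C') / M))) := by
    refine (hP.le hdep (fun ω => by simp only [hF]; split_ifs <;> norm_num) hNNz).trans ?_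
    have h1 : ∫ ω, F ω ∂mu ι = (mu ι).real {ω | V' ≤ ‖L.sm (pr z) ω s‖} := by
      have e : F = Set.indicator {ω : Om ι | V' ≤ ‖L.sm (pr z) ω s‖} (fun _ => (1 : ℝ)) := by
        funext ω
        simp only [hF, Set.indicator_apply, Set.mem_ofPred_eq]
      have hm : Measurable fun ω : Om ι => L.sm (pr z) ω s :=
        Finset.measurable_sum _ fun p _ => (measurable_of_finite (fun r => L.g p r s)).comp (measurable_pi_apply p)
      rw [e, integral_indicator (measurableSet_le measurable_const hm.norm), setIntegral_const, smul_eq_mul, mul_one]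
    rw [h1]
    have h2 := hC V' hVC s hs0 z
    have h3 : (V - C') / M + k * Real.log 2 ≤ (V' - C) / M := by
      have e : (V - C') / M + k * Real.log 2 = (V - C' + M * (k * Real.log 2)) / M := by field_simp
      rw [e]
      gcongr
      rw [hV', hC']
      linarith
    have h4 : 0 ≤ (V - C') / M := div_nonneg (by linarith) hM.le
    have h5 := shift_exp (k := k) h4
    refine le_trans ?_ h5
    refine mul_le_mul_of_nonneg_left (h2.trans ?_) (by positivity)
    refine Real.exp_le_exp.mpr (neg_le_neg (Real.exp_le_exp.mpr (Real.exp_le_exp.mpr h3)))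
  -- conclusion
  have hpt : ∀ c : ι → ℤ, A.indicator (fun _ => (1 : ℝ)) c ≤ F (redP c) + ‖∑ p ∈ S, L.g p (redP c p) s‖ ^ 2 := by
    intro c
    rw [Set.indicator_apply]
    split_ifs with hc
    · have h1 := hA c hc
      have h2 := htail c
      have h3 : L.sm (pr y) (redP c) s - L.sm (pr z) (redP c) s = ∑ p ∈ S, L.g p (redP c p) s := by
        unfold sm
        rw [← Finset.sum_sdiff (pr_mono hzy')]
        ring
      by_cases hF1 : V' ≤ ‖L.sm (pr z) (redP c) s‖
      · have : F (redP c) = 1 := by simp only [hF]; rw [if_pos hF1]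
        rw [this]
        have := sq_nonneg ‖∑ p ∈ S, L.g p (redP c p) s‖
        linarith
      · push Not at hF1
        have h4 : 1 ≤ ‖∑ p ∈ S, L.g p (redP c p) s‖ := by
          have h5 : L.Q (redP c) s = (L.Q (redP c) s - L.sm (pr y) (redP c) s) +
              (L.sm (pr z) (redP c) s + ∑ p ∈ S, L.g p (redP c p) s) := by
            rw [← h3]; ring
          rw [h5] at h1
          have h6 := norm_add_le (L.Q (redP c) s - L.sm (pr y) (redP c) s)
            (L.sm (pr z) (redP c) s + ∑ p ∈ S, L.g p (redP c p) s)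
          have h7 := norm_add_le (L.sm (pr z) (redP c) s) (∑ p ∈ S, L.g p (redP c p) s)
          linarith
        have h5 : 0 ≤ F (redP c) := by simp only [hF]; split_ifs <;> norm_num
        nlinarith
    · have h5 : 0 ≤ F (redP c) := by simp only [hF]; split_ifs <;> norm_num
      positivity
  have hA' : MeasurableSet A := A.to_countable.measurableSet
  have i1 : Integrable (fun c => F (redP c)) P :=
    Integrable.of_bound (measurable_of_countable _).aestronglyMeasurable 1 (ae_of_all _ fun c => by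
      simp only [hF]; split_ifs <;> norm_num)
  have i2 : Integrable (fun c => ‖∑ p ∈ S, L.g p (redP c p) s‖ ^ 2) P := by
    refine Integrable.of_bound (measurable_of_countable _).aestronglyMeasurable
      ((∑ p ∈ S, L.C * ((p : ℕ) : ℝ) ^ (-1 - s.re)) ^ 2) (ae_of_all _ fun c => ?_)
    rw [Real.norm_of_nonneg (by positivity)]
    exact pow_le_pow_left₀ (norm_nonneg _) ((norm_sum_le _ _).trans (Finset.sum_le_sum fun p _ =>
      L.bound p (redP c p) s hsH)) 2
  have hfin : P.real A ≤ ∫ c, F (redP c) ∂P + ∫ c, ‖∑ p ∈ S, L.g p (redP c p) s‖ ^ 2 ∂P := by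
    rw [← integral_add i1 i2, ← mul_one (P.real A), ← smul_eq_mul, ← setIntegral_const, ← integral_indicator hA']
    exact integral_mono ((integrable_const _).indicator hA') (i1.add i2) hpt
  have hBz : B / z ≤ C' / Real.log H := by
    rw [div_le_div_iff₀ (by linarith) hlogH]
    have : 4 * B ≤ C' := by
      have : 0 ≤ C + M * (k * Real.log 2) + 1 + 64 * L.C := by positivity
      rw [hC']
      linarith
    calc B * Real.log H ≤ B * (4 * z) := by gcongr
      _ = (4 * B) * z := by ring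
      _ ≤ C' * z := by gcongr
  linarith

end Run7.h113.FG
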