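import Pool.Agent.Run7.h113.FG.EC
import Pool.Agent.Run7.h113.FG.Tl

/-!
# Families of elliptic curves: the local data, the singular members, the logarithm of the L-series
-/

set_option autoImplicit false

namespace Run7.h113.FG

open Finset Filter Topology NumberField IsDedekindDomain MeasureTheory
open Run7.h113.FE
open Pool.Agent.Y722.HS (IH)
open Pool.Agent.H921R2.TatePole (nm two_le_nm below deg nm_eq below_le_nm card_above nm_summable)
open Run7.h876.MM (nv curve trace factor LSeries kv rd disc_curve)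

section
variable {K : Type} [Field K] [NumberField K] {ι : Type} [Fintype ι] [DecidableEq ι] {A B : MvPolynomial ι (𝓞 K)}
  {i₀ : ι} {β : 𝓞 K}

lemma nm_le_of_mem {v : HeightOneSpectrum (𝓞 K)} (hβ : β ≠ 0) (h : β ∈ v.asIdeal) :
    nm v ≤ Ideal.absNorm (Ideal.span {β}) := by
  have h1 : v.asIdeal ∣ Ideal.span {β} := by
    rw [Ideal.dvd_iff_le, Ideal.span_singleton_le_iff_mem]
    exact h
  have h2 : Ideal.absNorm v.asIdeal ∣ Ideal.absNorm (Ideal.span {β}) := map_dvd Ideal.absNorm h1
  refine Nat.le_of_dvd (Nat.pos_of_ne_zero ?_) h2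
  rw [Ne, Ideal.absNorm_eq_zero_iff, Ideal.span_singleton_eq_bot]
  exact hβ

/-- The local data of a family of elliptic curves. -/
noncomputable def ecPL (hV : Vertical A B i₀ β) (hβ : β ≠ 0) : PL K ι 2 (1 / 2) where
  α := al A B
  bound := fun v r j => frob_norm _ _ v j
  D := 4 + 2 * Real.sqrt (max 3 (Ideal.absNorm (Ideal.span {β}) : ℕ))
  D0 := by positivity
  mean := fun v hd => by
    rw [sub_self, Real.rpow_zero, mul_one]
    by_cases h : β ∉ v.asIdeal ∧ 3 < ((below v : Nat.Primes) : ℕ)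
    · refine (mean_good hV rfl hd h.1 h.2).trans ?_
      have := Real.sqrt_nonneg (max 3 ((Ideal.absNorm (Ideal.span {β}) : ℕ) : ℝ))
      linarith
    · have h1 : (nm v : ℝ) ≤ max 3 ((Ideal.absNorm (Ideal.span {β}) : ℕ) : ℝ) := by
        rw [not_and_or, not_not, not_lt] at h
        rcases h with h | h
        · exact le_max_of_le_right (by exact_mod_cast nm_le_of_mem hβ h)
        · refine le_max_of_le_left ?_
          rw [(nm_eq v).1, hd, pow_one]
          exact_mod_cast h
      have h2 : ‖EC (below v) (fun r : ι → ZMod (below v) => ∑ j, al A B (below v) r v j)‖ ≤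
          2 * Real.sqrt (nm v) := by
        refine EC_norm _ _ fun r => ?_
        refine (norm_sum_le _ _).trans ?_
        refine (Finset.sum_le_sum fun j _ => frob_norm _ _ v j).trans (le_of_eq ?_)
        rw [Finset.sum_const, Finset.card_univ, Fintype.card_fin, nsmul_eq_mul, Real.sqrt_eq_rpow]
        push_cast
        ring
      refine h2.trans ?_
      have := Real.sqrt_le_sqrt h1
      linarith

open Classical in
/-- The nonsingular members of the box. -/
noncomputable def mem (A B : MvPolynomial ι (𝓞 K)) (N : ι → ℕ) : Finset (ι → ℤ) :=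
  (gbox N).filter fun c => (fam A B c).Δ ≠ 0

/-- The mean value over the nonsingular members. -/
noncomputable def fmean (A B : MvPolynomial ι (𝓞 K)) (N : ι → ℕ) (f : (ι → ℤ) → ℝ) : ℝ :=
  (∑ c ∈ mem A B N, f c) / ((mem A B N).card : ℝ)

lemma card_two (a : 𝓞 K) (S : Finset (𝓞 K)) (hS : ∀ y ∈ S, -16 * (4 * a ^ 3 + 27 * y ^ 2) = 0) : S.card ≤ 2 := by
  classical
  set f : Polynomial (𝓞 K) := Polynomial.C 27 * Polynomial.X ^ 2 + Polynomial.C (4 * a ^ 3) with hf
  have h27 : (27 : 𝓞 K) ≠ 0 := by norm_num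
  have hdeg : f.natDegree = 2 := by
    rw [hf]
    compute_degree!
  have hf0 : f ≠ 0 := by
    intro h
    rw [h, Polynomial.natDegree_zero] at hdeg
    omega
  have h1 : S ⊆ f.roots.toFinset := by
    intro y hy
    have h2 := hS y hy
    have h3 : 4 * a ^ 3 + 27 * y ^ 2 = 0 := (mul_eq_zero.mp h2).resolve_left (by norm_num)
    rw [Multiset.mem_toFinset, Polynomial.mem_roots hf0, Polynomial.IsRoot.def, hf]
    simp only [Polynomial.eval_add, Polynomial.eval_mul, Polynomial.eval_C, Polynomial.eval_pow, Polynomial.eval_X]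
    rw [← h3]
    ring
  calc _ ≤ f.roots.toFinset.card := Finset.card_le_card h1
    _ ≤ Multiset.card f.roots := Multiset.toFinset_card_le _
    _ ≤ f.natDegree := Polynomial.card_roots' f
    _ = 2 := hdeg

open Classical in
/-- Few members are singular. -/
lemma card_sing (hV : Vertical A B i₀ β) (hβ : β ≠ 0) (N : ι → ℕ) :
    (((gbox N).filter fun c => ¬ (fam A B c).Δ ≠ 0).card) * (2 * N i₀ + 1) ≤ 2 * (gbox N).card := by
  set Z := (gbox N).filter fun c => ¬ (fam A B c).Δ ≠ 0 with hZ
  set N' : ι → ℕ := Function.update N i₀ 0 with hN'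
  set π : (ι → ℤ) → (ι → ℤ) := fun c => Function.update c i₀ 0 with hπ
  have hmap : ∀ c ∈ Z, π c ∈ gbox N' := by
    intro c hc
    have h1 := (Finset.mem_filter.mp hc).1
    unfold gbox at h1 ⊢
    rw [Fintype.mem_piFinset] at h1 ⊢
    intro i
    by_cases hi : i = i₀
    · subst hi
      simp [hπ, hN', IH]
    · simp only [hπ, hN', Function.update_of_ne hi]
      exact h1 i
  have hdec : ∀ c : ι → ℤ, c = π c + Pi.single i₀ (c i₀) := by
    intro c
    funext i
    by_cases hi : i = i₀
    · subst hi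
      simp [hπ]
    · simp [hπ, Function.update_of_ne hi, Pi.single_eq_of_ne hi]
  have hfib : ∀ d ∈ gbox N', (Z.filter fun c => π c = d).card ≤ 2 := by
    intro d _
    set y : (ι → ℤ) → 𝓞 K := fun c => ev d B + ((c i₀ : ℤ) : 𝓞 K) * β with hy
    have hinj : Set.InjOn y (Z.filter fun c => π c = d) := by
      intro c hc c' hc' h
      have e1 := (Finset.mem_filter.mp (Finset.mem_coe.mp hc)).2
      have e2 := (Finset.mem_filter.mp (Finset.mem_coe.mp hc')).2
      have h3 : ((c i₀ : ℤ) : 𝓞 K) = ((c' i₀ : ℤ) : 𝓞 K) := mul_right_cancel₀ hβ (add_left_cancel h)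
      have h4 : c i₀ = c' i₀ := by exact_mod_cast h3
      rw [hdec c, hdec c', e1, e2, h4]
    rw [← Finset.card_image_of_injOn hinj]
    refine card_two (ev d A) _ fun z hz => ?_
    obtain ⟨c, hc, rfl⟩ := Finset.mem_image.mp hz
    obtain ⟨hc1, hc2⟩ := Finset.mem_filter.mp hc
    have h5 := (Finset.mem_filter.mp hc1).2
    rw [not_not] at h5
    have h6 := hV d (c i₀)
    rw [← hc2, ← hdec c, hc2] at h6
    unfold fam at h5
    rw [disc_curve, h6.1, h6.2] at h5
    exact h5
  have h1 : Z.card ≤ 2 * (gbox N').card := by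
    have h2 := Finset.card_eq_sum_card_fiberwise (f := π) (s := Z) (t := gbox N') (fun c hc => hmap c hc)
    rw [h2]
    refine (Finset.sum_le_sum hfib).trans ?_
    rw [Finset.sum_const, smul_eq_mul, mul_comm]
  have h3 : (gbox N').card * (2 * N i₀ + 1) = (gbox N).card := by
    rw [card_gbox, card_gbox, ← Finset.mul_prod_erase _ _ (Finset.mem_univ i₀),
      ← Finset.mul_prod_erase _ (fun i => 2 * N i + 1) (Finset.mem_univ i₀)]
    have h4 : ∀ i ∈ Finset.univ.erase i₀, 2 * N' i + 1 = 2 * N i + 1 := by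
      intro i hi
      rw [hN', Function.update_of_ne (Finset.ne_of_mem_erase hi)]
    rw [Finset.prod_congr rfl h4]
    simp only [hN', Function.update_self]
    ring
  calc Z.card * (2 * N i₀ + 1) ≤ (2 * (gbox N').card) * (2 * N i₀ + 1) := by gcongr
    _ = 2 * ((gbox N').card * (2 * N i₀ + 1)) := by ring
    _ = _ := by rw [h3]

/-- Mean values over all members and over the nonsingular ones. -/
lemma fmean_close (hV : Vertical A B i₀ β) (hβ : β ≠ 0) {H : ℕ} {N : ι → ℕ} (hN : ∀ i, H ≤ N i)
    (f : (ι → ℤ) → ℝ) {C : ℝ} (hC : ∀ c, |f c| ≤ C) : |fmean A B N f - gm N f| ≤ 4 * C / (2 * H + 1) := by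
  classical
  have hC0 : 0 ≤ C := (abs_nonneg _).trans (hC 0)
  set Z := (gbox N).filter fun c => ¬ (fam A B c).Δ ≠ 0 with hZ
  set n : ℝ := ((mem A B N).card : ℝ) with hn
  set t : ℝ := (Z.card : ℝ) with ht
  set S : ℝ := ∑ c ∈ mem A B N, f c with hS
  set s : ℝ := ∑ c ∈ Z, f c with hs
  have hsum : ∑ c ∈ gbox N, f c = S + s := by
    rw [hS, hs, hZ, mem]
    exact (Finset.sum_filter_add_sum_filter_not _ _ _).symm
  have hcard : ((gbox N).card : ℝ) = n + t := by
    rw [hn, ht, hZ, mem]
    exact_mod_cast (Finset.card_filter_add_card_filter_not (s := gbox N) (fun c => (fam A B c).Δ ≠ 0)).symm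
  have hpos : 0 < n + t := by
    rw [← hcard]
    exact_mod_cast card_gbox_pos N
  have hn0 : 0 ≤ n := Nat.cast_nonneg _
  have ht0 : 0 ≤ t := Nat.cast_nonneg _
  have hSb : |S| ≤ n * C := by
    refine (Finset.abs_sum_le_sum_abs _ _).trans ((Finset.sum_le_sum fun c _ => hC c).trans ?_)
    rw [Finset.sum_const, nsmul_eq_mul]
  have hsb : |s| ≤ t * C := by
    refine (Finset.abs_sum_le_sum_abs _ _).trans ((Finset.sum_le_sum fun c _ => hC c).trans ?_)
    rw [Finset.sum_const, nsmul_eq_mul]
  have hfrac : t / (n + t) ≤ 2 / (2 * H + 1) := by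
    rw [div_le_div_iff₀ hpos (by positivity), ← hcard]
    have h1 : (t * (2 * N i₀ + 1) : ℝ) ≤ 2 * ((gbox N).card : ℝ) := by
      rw [ht]
      exact_mod_cast card_sing hV hβ N
    have h2 : (H : ℝ) ≤ N i₀ := by exact_mod_cast hN i₀
    have h3 : t * (2 * H + 1) ≤ t * (2 * N i₀ + 1) := by gcongr
    linarith
  have hkey : |fmean A B N f - gm N f| ≤ 2 * C * (t / (n + t)) := by
    have e0 : fmean A B N f - gm N f = S / n - (S + s) / (n + t) := by
      unfold fmean gm
      rw [hsum, hcard]
    rw [e0]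
    rcases hn0.eq_or_lt with h0 | h0
    · have hS0 : S = 0 := by
        rw [← h0, zero_mul] at hSb
        exact abs_nonpos_iff.mp hSb
      rw [← h0, hS0, zero_add, zero_add, zero_div, zero_sub, abs_neg, abs_div, abs_of_nonneg ht0]
      rw [← h0, zero_add] at hpos
      rw [div_self hpos.ne', mul_one, div_le_iff₀ hpos]
      linarith [mul_nonneg ht0 hC0]
    · have e : S / n - (S + s) / (n + t) = (S / n) * (t / (n + t)) - s / (n + t) := by
        field_simp
        ring
      rw [e]
      refine (abs_sub _ _).trans ?_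
      rw [abs_mul, abs_div, abs_div s, abs_of_pos h0, abs_of_pos hpos, abs_of_nonneg (by positivity : 0 ≤ t / (n + t))]
      have e1 : |S| / n ≤ C := by
        rw [div_le_iff₀ h0]
        linarith
      have e2 : |s| / (n + t) ≤ C * (t / (n + t)) := by
        rw [mul_div_assoc', div_le_div_iff_of_pos_right hpos]
        linarith
      have e3 : |S| / n * (t / (n + t)) ≤ C * (t / (n + t)) := by gcongr
      linarith
  refine hkey.trans ?_
  calc 2 * C * (t / (n + t)) ≤ 2 * C * (2 / (2 * H + 1)) := by gcongr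
    _ = _ := by ring

/-! ### the logarithm of the L-series -/

/-- Euler products and sums of logarithms. -/
lemma exp_tsum' {T : Type*} {b : ℕ} (z : T → Fin b → ℂ) (u : T → ℝ) (hu : Summable u)
    (hz : ∀ p j, ‖z p j‖ ≤ u p) (hz1 : ∀ p j, ‖z p j‖ ≤ 0.7072) :
    Summable (fun p : T => ∑ j, -Complex.log (1 - z p j)) ∧
    Complex.exp (∑' p : T, ∑ j, -Complex.log (1 - z p j)) = ∏' p : T, ∏ j, (1 - z p j)⁻¹ := by
  have h1 : Summable fun p : T => ∑ j, -Complex.log (1 - z p j) := by
    refine Summable.of_norm_bounded (g := fun p => (3 * (b : ℝ)) * u p) (hu.mul_left (3 * (b : ℝ))) fun p => ?_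
    refine (norm_sum_le _ _).trans ?_
    have h2 : ∀ j ∈ (Finset.univ : Finset (Fin b)), ‖-Complex.log (1 - z p j)‖ ≤ 3 * u p := by
      intro j _
      rw [norm_neg]
      refine (Run7.h113.FE.log1 (hz1 p j)).2.trans ?_
      have := hz p j
      linarith
    refine (Finset.sum_le_sum h2).trans (le_of_eq ?_)
    rw [Finset.sum_const, nsmul_eq_mul, Finset.card_univ, Fintype.card_fin]
    ring
  refine ⟨h1, ?_⟩
  have h2 := h1.hasSum.cexp
  rw [← h2.tprod_eq]
  refine tprod_congr fun p => ?_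
  simp only [Function.comp, Complex.exp_sum]
  refine Finset.prod_congr rfl fun j _ => ?_
  have h3 : (1 - z p j) ≠ 0 := by
    intro h
    have h4 : ‖z p j‖ = 1 := by rw [← sub_eq_zero.mp h, norm_one]
    have := hz1 p j
    rw [h4] at this
    norm_num at this
  rw [Complex.exp_neg, Complex.exp_log h3]

/-- Sums over the places and sums over the rational primes. -/
lemma tsum_ab {g : HeightOneSpectrum (𝓞 K) → ℂ} (hg : Summable g) :
    ∑' v, g v = ∑' p : Nat.Primes, ∑ v ∈ ab K p, g v := by
  have h0 := ((Equiv.sigmaFiberEquiv (below (K := K))).summable_iff.mpr hg)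
  have h1 := h0.tsum_sigma
  have h2 : ∑' c : (y : Nat.Primes) × {v : HeightOneSpectrum (𝓞 K) // below v = y},
      (g ∘ (Equiv.sigmaFiberEquiv (below (K := K)))) c = ∑' v, g v :=
    (Equiv.sigmaFiberEquiv (below (K := K))).tsum_eq g
  rw [← h2, h1]
  refine tsum_congr fun p => ?_
  rw [tsum_fintype]
  unfold ab
  rw [Finset.sum_map]
  rfl

variable {b : ℕ} {h : ℝ}

/-- The sum over the rational primes is the sum over the places. -/
lemma Q_places (L : PL K ι b h) (r : Om ι) (a : HeightOneSpectrum (𝓞 K) → Fin b → ℂ)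
    (ha : ∀ v, a v = L.α (below v) (r (below v)) v) {s : ℂ} (hs : 0 < s.re) :
    Summable (fun v => lf (a v) h v s) ∧ ∑' v, lf (a v) h v s = L.loc.Q r s ∧
    Complex.exp (∑' v, lf (a v) h v s) = ∏' v, ∏ j, (1 - a v j * (nm v : ℂ) ^ (-((h : ℂ) + 1 + s)))⁻¹ := by
  have hb : ∀ v j, ‖a v j‖ ≤ (nm v : ℝ) ^ h := by
    intro v j
    rw [ha v]
    exact L.bound v _ j
  have hsum : Summable fun v : HeightOneSpectrum (𝓞 K) => (nm v : ℝ) ^ (-1 - s.re) := by
    have h1 := nm_summable (K := K) (x := 1 + s.re) (by linarith)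
    refine h1.congr fun v => ?_
    congr 1
    ring
  obtain ⟨h1, h2⟩ := exp_tsum' (fun (v : HeightOneSpectrum (𝓞 K)) j => a v j * (nm v : ℂ) ^ (-((h : ℂ) + 1 + s)))
    (fun v => (nm v : ℝ) ^ (-1 - s.re)) hsum (fun v j => nterm v (hb v j) s)
    (fun v j => (nterm v (hb v j) s).trans (nm_small v (by linarith)))
  have h1' : Summable fun v => lf (a v) h v s := h1
  refine ⟨h1', ?_, h2⟩
  rw [tsum_ab h1']
  unfold Loc.Q
  refine tsum_congr fun p => ?_
  refine Finset.sum_congr rfl fun v hv => ?_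
  have hv' := mem_ab.mp hv
  subst hv'
  rw [ha v]

end

end Run7.h113.FG
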