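import Pool.Agent.Run7.h113.FG.Samp

/-!
# The functional limit theorem for nearly equidistributed integer vectors
-/

set_option autoImplicit false

namespace Run7.h113.FG

open Finset MeasureTheory ProbabilityTheory Filter Topology
open Pool.Agent.Y722.HS (EB EM red)
open Run7.h113.FE Run7.h113.FE.Loc
open scoped ENNReal NNReal

variable {ι : Type} [Fintype ι] [DecidableEq ι] {M : ℝ}

/-- The middle primes: mean value of the dominating function. -/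
lemma DD_samp (L : Loc ι M) {P' : Measure (ι → ℤ)} {H : ℕ} (hP' : Eqd P' H) {A : Finset ℂ} {R θ : ℝ} (hR : 0 < R)
    (hθ0 : 0 ≤ θ) (hθ : θ < 1 / 2)
    (hA : ∀ a ∈ A, ∀ z ∈ Metric.closedBall a R, -θ ≤ z.re) {y P : ℕ} (hy1 : 1 ≤ y) (hy : y ^ 4 ≤ H) :
    Integrable (fun c : ι → ℤ => L.DD A R (pr y \ pr P) (redP c)) P' ∧
    ∫ c, L.DD A R (pr y \ pr P) (redP c) ∂P' ≤
      A.card * (2 * (2 * (L.C * Real.sqrt (tau (2 - 2 * θ) P + tau (3 / 2 - θ) P ^ 2 + 2 ^ Fintype.card ι / y)))) := by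
  have hC := L.C0
  have hAH : ∀ a ∈ A, Metric.closedBall a R ⊆ HP := by
    intro a ha z hz
    have := hA a ha z hz
    change -(1 / 2) < z.re
    linarith
  have hyr : (1 : ℝ) ≤ y := by exact_mod_cast hy1
  have hyp : (0 : ℝ) < y := by linarith
  have hHy : (y : ℝ) ^ 4 ≤ H := by exact_mod_cast hy
  have hpos : 0 < tau (2 - 2 * θ) P + tau (3 / 2 - θ) P ^ 2 + 2 ^ Fintype.card ι / (y : ℝ) := by
    have := tau_nonneg (2 - 2 * θ) P
    positivity
  refine L.DD_int hP'.rnd hR hAH (pr y \ pr P) _ fun a ha φ => ?_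
  refine L.sm_mean hP'.rnd (θ := θ) (hA a ha _ (circleMap_mem_closedBall a hR.le φ)) hθ (pr y \ pr P) ?_ _
    (by positivity) ?_
  · intro p hp q hq
    have h1 : ((p : ℕ) : ℝ) ≤ y := by exact_mod_cast mem_pr.mp (Finset.mem_sdiff.mp hp).1
    have h2 : ((q : ℕ) : ℝ) ≤ y := by exact_mod_cast mem_pr.mp (Finset.mem_sdiff.mp hq).1
    calc ((p : ℕ) : ℝ) * ((q : ℕ) : ℝ) ≤ y * y := by gcongr
      _ ≤ (y : ℝ) ^ 4 := by
          calc (y : ℝ) * y = (y : ℝ) ^ 2 := by ring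
            _ ≤ _ := pow_le_pow_right₀ hyr (by norm_num)
      _ ≤ 2 * H + 1 := by linarith
  · have hP : ∀ p ∈ pr y \ pr P, P < (p : ℕ) := by
      intro p hp
      have := (Finset.mem_sdiff.mp hp).2
      rw [mem_pr] at this
      omega
    have hpy : ∀ p ∈ pr y \ pr P, ((p : ℕ) : ℝ) ≤ y := by
      intro p hp
      exact_mod_cast mem_pr.mp (Finset.mem_sdiff.mp hp).1
    have s1 : ∑ p ∈ pr y \ pr P, (L.C * ((p : ℕ) : ℝ) ^ (-1 + θ)) ^ 2 ≤ L.C ^ 2 * tau (2 - 2 * θ) P := by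
      have e : ∀ p ∈ pr y \ pr P, (L.C * ((p : ℕ) : ℝ) ^ (-1 + θ)) ^ 2 = L.C ^ 2 * ((p : ℕ) : ℝ) ^ (-(2 - 2 * θ)) := by
        intro p _
        have hp0 : (0 : ℝ) < ((p : ℕ) : ℝ) := by exact_mod_cast p.2.pos
        rw [mul_pow, sq (((p : ℕ) : ℝ) ^ (-1 + θ)), ← Real.rpow_add hp0]
        congr 2
        ring
      rw [Finset.sum_congr rfl e, ← Finset.mul_sum]
      gcongr
      exact sum_tail P _ hP (Real.summable_nat_rpow.mpr (by linarith))
    have s2 : ∑ p ∈ pr y \ pr P, L.C * ((p : ℕ) : ℝ) ^ (-(3 / 2) + θ) ≤ L.C * tau (3 / 2 - θ) P := by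
      rw [← Finset.mul_sum]
      gcongr
      have e : ∀ p ∈ pr y \ pr P, ((p : ℕ) : ℝ) ^ (-(3 / 2) + θ) = ((p : ℕ) : ℝ) ^ (-(3 / 2 - θ)) := by
        intro p _
        congr 1
        ring
      rw [Finset.sum_congr rfl e]
      exact sum_tail P _ hP (Real.summable_nat_rpow.mpr (by linarith))
    have s20 : 0 ≤ ∑ p ∈ pr y \ pr P, L.C * ((p : ℕ) : ℝ) ^ (-(3 / 2) + θ) :=
      Finset.sum_nonneg fun p _ => by positivity
    have s3 : ∑ p ∈ pr y \ pr P, ((p : ℕ) : ℝ) * (L.C * ((p : ℕ) : ℝ) ^ (-1 + θ)) ≤ L.C * (y * (y : ℝ) ^ θ) := by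
      have e : ∀ p ∈ pr y \ pr P, ((p : ℕ) : ℝ) * (L.C * ((p : ℕ) : ℝ) ^ (-1 + θ)) ≤ L.C * (y : ℝ) ^ θ := by
        intro p hp
        have hp0 : (0 : ℝ) < ((p : ℕ) : ℝ) := by exact_mod_cast p.2.pos
        have e1 : ((p : ℕ) : ℝ) * (L.C * ((p : ℕ) : ℝ) ^ (-1 + θ)) = L.C * ((p : ℕ) : ℝ) ^ θ := by
          rw [Real.rpow_add hp0, Real.rpow_neg_one]
          field_simp
        rw [e1]
        have := hpy p hp
        gcongr
      refine (Finset.sum_le_sum e).trans ?_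
      rw [Finset.sum_const, nsmul_eq_mul]
      have hc : ((pr y \ pr P).card : ℝ) ≤ y := by
        have h1 : (pr y \ pr P).card ≤ (pr y).card := Finset.card_le_card Finset.sdiff_subset
        have h2 : ((pr y).image fun p : Nat.Primes => (p : ℕ)) ⊆ Finset.Icc 1 y := by
          intro n hn
          obtain ⟨p, hp, rfl⟩ := Finset.mem_image.mp hn
          rw [mem_pr] at hp
          exact Finset.mem_Icc.mpr ⟨p.2.one_lt.le, hp⟩
        have h3 := Finset.card_le_card h2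
        have h4 := Finset.card_image_of_injective (pr y) (f := fun p : Nat.Primes => (p : ℕ))
          (fun a b h => Subtype.ext h)
        rw [h4, Nat.card_Icc] at h3
        have h5 : (pr y \ pr P).card ≤ y := by omega
        exact_mod_cast h5
      calc ((pr y \ pr P).card : ℝ) * (L.C * (y : ℝ) ^ θ) ≤ y * (L.C * (y : ℝ) ^ θ) := by gcongr
        _ = _ := by ring
    have s30 : 0 ≤ ∑ p ∈ pr y \ pr P, ((p : ℕ) : ℝ) * (L.C * ((p : ℕ) : ℝ) ^ (-1 + θ)) :=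
      Finset.sum_nonneg fun p _ => by positivity
    have s4 : (2 : ℝ) ^ Fintype.card ι / (2 * H + 1) *
        (∑ p ∈ pr y \ pr P, ((p : ℕ) : ℝ) * (L.C * ((p : ℕ) : ℝ) ^ (-1 + θ))) ^ 2 ≤
        L.C ^ 2 * (2 ^ Fintype.card ι / y) := by
      have h1 : (y : ℝ) ^ θ ≤ (y : ℝ) ^ (1 / 2 : ℝ) := Real.rpow_le_rpow_of_exponent_le hyr hθ.le
      have h2 : ((y : ℝ) ^ (1 / 2 : ℝ)) ^ 2 = y := by
        rw [← Real.rpow_natCast, ← Real.rpow_mul hyp.le]
        norm_num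
      have h3 : (L.C * (y * (y : ℝ) ^ θ)) ^ 2 ≤ L.C ^ 2 * (y : ℝ) ^ 3 := by
        have h4 : ((y : ℝ) ^ θ) ^ 2 ≤ (y : ℝ) := by
          calc ((y : ℝ) ^ θ) ^ 2 ≤ ((y : ℝ) ^ (1 / 2 : ℝ)) ^ 2 := by gcongr
            _ = (y : ℝ) := h2
        calc (L.C * (y * (y : ℝ) ^ θ)) ^ 2 = L.C ^ 2 * (y ^ 2 * ((y : ℝ) ^ θ) ^ 2) := by ring
          _ ≤ L.C ^ 2 * (y ^ 2 * y) := by gcongr
          _ = _ := by ring
      calc _ ≤ (2 : ℝ) ^ Fintype.card ι / (y : ℝ) ^ 4 * (L.C ^ 2 * (y : ℝ) ^ 3) := by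
            have h5 : (∑ p ∈ pr y \ pr P, ((p : ℕ) : ℝ) * (L.C * ((p : ℕ) : ℝ) ^ (-1 + θ))) ^ 2 ≤
                L.C ^ 2 * (y : ℝ) ^ 3 := (pow_le_pow_left₀ s30 s3 2).trans h3
            gcongr
            linarith
        _ = _ := by field_simp
    have s5 : (∑ p ∈ pr y \ pr P, L.C * ((p : ℕ) : ℝ) ^ (-(3 / 2) + θ)) ^ 2 ≤ L.C ^ 2 * tau (3 / 2 - θ) P ^ 2 := by
      calc _ ≤ (L.C * tau (3 / 2 - θ) P) ^ 2 := pow_le_pow_left₀ s20 s2 2
        _ = _ := by ring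
    rw [mul_pow, Real.sq_sqrt hpos.le]
    linarith

variable {P : ℕ → Measure (ι → ℤ)} {H : ℕ → ℕ}

/-- The limit theorem for bounded Lipschitz functions. -/
lemma lim_lip (L : Loc ι M) {K : Set ℂ} (hP : ∀ n, Eqd (P n) (H n)) (hH : Tendsto H atTop atTop) (hK : IsCompact K)
    (hK0 : ∀ s ∈ K, 0 ≤ s.re) {ε : ℕ → ℝ} (hε0 : ∀ n, 0 < ε n)
    (hε : Tendsto ε atTop (𝓝 0)) (hεL : Tendsto (fun n : ℕ => ε n * Real.log (H n)) atTop atTop)
    (Y : ℕ → (ι → ℤ) → C(K, ℂ)) {ρ : ℕ → ℝ} (hρ : Tendsto ρ atTop (𝓝 0))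
    (hY : ∀ n c (s : K), ‖Y n c s - L.Q (redP c) (ε n + s)‖ ≤ ρ n) (G : C(K, ℂ) → ℝ) {B : ℝ} (hB : ∀ x, |G x| ≤ B)
    [CompactSpace K] {Λ : ℝ≥0} (hG : LipschitzWith Λ G) :
    Tendsto (fun n : ℕ => ∫ c, G (Y n c) ∂P n) atTop (𝓝 (∫ ω, G (L.PhiK K ω) ∂mu ι)) := by
  have hC := L.C0
  have hB0 : 0 ≤ B := (abs_nonneg _).trans (hB 0)
  have hprob : ∀ n, IsProbabilityMeasure (P n) := fun n => (hP n).prob
  set K' : Set ℂ := (fun x : ℝ × ℂ => ((x.1 : ℝ) : ℂ) + x.2) '' (Set.Icc (0 : ℝ) 1 ×ˢ K) with hK'def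
  have hK' : IsCompact K' := (isCompact_Icc.prod hK).image (by fun_prop)
  have hsub : K' ⊆ HP := by
    rintro z ⟨⟨t, w⟩, ⟨ht, hw⟩, rfl⟩
    have h1 := hK0 w hw
    have h2 := ht.1
    change -(1 / 2) < ((t : ℂ) + w).re
    simp only [Complex.add_re, Complex.ofReal_re]
    change 0 ≤ t at h2
    linarith
  obtain ⟨A, R, θ, hR, _, hθ0, hθ, hA, hcov⟩ := cover hK' hsub
  have hAH : ∀ a ∈ A, Metric.closedBall a R ⊆ HP := by
    intro a ha z hz
    have := hA a ha z hz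
    change -(1 / 2) < z.re
    linarith
  -- the limit over the random Euler products
  have hdepSK : ∀ P₀ : ℕ, Dep (pr P₀) fun ω : Om ι => G (L.SK (edge_sub hK0) P₀ ω) := by
    intro P₀ ω ω' h
    have : L.SK (edge_sub hK0) P₀ ω = L.SK (edge_sub hK0) P₀ ω' := by
      ext s
      exact congrFun (L.dep_sm (pr P₀) (fun f => f) ω ω' h) s
    change G _ = G _
    rw [this]
  have hmeasP : ∀ P₀, AEStronglyMeasurable (fun ω => G (L.SK (edge_sub hK0) P₀ ω)) (mu ι) := by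
    intro P₀
    have hd := hdepSK P₀
    have e : (fun ω : Om ι => G (L.SK (edge_sub hK0) P₀ ω)) =
        (fun r => G (L.SK (edge_sub hK0) P₀ (FE.ext (pr P₀) r))) ∘ (pr P₀).restrict := by
      funext ω
      exact (hd.eq ω).symm
    rw [e]
    exact ((measurable_of_finite _).comp (Finset.measurable_restrict _)).aestronglyMeasurable
  have hlimP : Tendsto (fun P₀ => ∫ ω, G (L.SK (edge_sub hK0) P₀ ω) ∂mu ι) atTop (𝓝 (∫ ω, G (L.PhiK K ω) ∂mu ι)) := by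
    refine tendsto_integral_of_dominated_convergence (fun _ => B) hmeasP (integrable_const _)
      (fun P₀ => ae_of_all _ fun ω => hB _) ?_
    filter_upwards [L.SK_tendsto hK hK0] with ω hω
    exact (hG.continuous.tendsto _).comp hω
  rw [Metric.tendsto_atTop]
  intro δ hδ
  set Λ' : ℝ := (Λ : ℝ) + 1 with hΛ'
  have hΛ'0 : 0 < Λ' := by positivity
  have hbP : Tendsto (fun P₀ => (A.card : ℝ) * (2 * (2 * (L.C * Real.sqrt (tau (2 - 2 * θ) P₀ + tau (3 / 2 - θ) P₀ ^ 2)))))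
      atTop (𝓝 0) := by
    have h1 : Tendsto (fun P₀ => tau (2 - 2 * θ) P₀ + tau (3 / 2 - θ) P₀ ^ 2) atTop (𝓝 0) := by
      simpa using (tau_tendsto (2 - 2 * θ)).add ((tau_tendsto (3 / 2 - θ)).pow 2)
    have h2 := (Real.continuous_sqrt.tendsto 0).comp h1
    rw [Real.sqrt_zero] at h2
    simpa using (((h2.const_mul L.C).const_mul 2).const_mul 2).const_mul (A.card : ℝ)
  obtain ⟨P₀, hP1, hP2⟩ := (((Metric.tendsto_nhds.mp hlimP (δ / 4) (by positivity))).and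
    (hbP.eventually (gt_mem_nhds (show 0 < δ / (16 * Λ') by positivity)))).exists
  obtain ⟨η, hη, hshift⟩ := L.shift_small hK hK0 P₀ (show 0 < δ / (16 * Λ') by positivity)
  have hbox := eqd_tendsto hP hH (hdepSK P₀)
  -- eventual conditions
  have ev1 := Metric.tendsto_nhds.mp hbox (δ / 4) (by positivity)
  have ev2 := hε.eventually (gt_mem_nhds hη)
  have ev3 := hε.eventually (gt_mem_nhds (zero_lt_one))
  have ev4 := hρ.eventually (gt_mem_nhds (show 0 < δ / (16 * Λ') by positivity))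
  have hyt : Tendsto (fun n => Nat.sqrt (Nat.sqrt (H n))) atTop atTop := y_tendsto.comp hH
  have hy1 : ∀ᶠ n : ℕ in atTop, 1 ≤ Nat.sqrt (Nat.sqrt (H n)) := hyt.eventually_ge_atTop 1
  have hyP : ∀ᶠ n : ℕ in atTop, P₀ ≤ Nat.sqrt (Nat.sqrt (H n)) := hyt.eventually_ge_atTop P₀
  have hmid : Tendsto (fun n : ℕ => (A.card : ℝ) * (2 * (2 * (L.C * Real.sqrt (tau (2 - 2 * θ) P₀ + tau (3 / 2 - θ) P₀ ^ 2 +
      2 ^ Fintype.card ι / ((Nat.sqrt (Nat.sqrt (H n)) : ℕ) : ℝ)))))) atTop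
      (𝓝 ((A.card : ℝ) * (2 * (2 * (L.C * Real.sqrt (tau (2 - 2 * θ) P₀ + tau (3 / 2 - θ) P₀ ^ 2)))))) := by
    have h0 : Tendsto (fun n : ℕ => (2 : ℝ) ^ Fintype.card ι / ((Nat.sqrt (Nat.sqrt (H n)) : ℕ) : ℝ)) atTop (𝓝 0) :=
      (tendsto_natCast_atTop_atTop.comp hyt).const_div_atTop _
    have h1 := (h0.const_add (tau (2 - 2 * θ) P₀ + tau (3 / 2 - θ) P₀ ^ 2))
    rw [add_zero] at h1
    exact ((((((Real.continuous_sqrt.tendsto _).comp h1).const_mul L.C).const_mul 2).const_mul 2).const_mul _)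
  have ev5 := hmid.eventually (gt_mem_nhds hP2)
  have ev6 : ∀ᶠ n : ℕ in atTop, 64 * L.C / (δ / (16 * Λ')) < ε n * Real.log (H n) := hεL.eventually_gt_atTop _
  obtain ⟨n0, hn0⟩ := eventually_atTop.mp (ev1.and (ev2.and (ev3.and (ev4.and (hy1.and (hyP.and (ev5.and
    (ev6.and (hH.eventually_gt_atTop 1)))))))))
  refine ⟨n0, fun n hn => ?_⟩
  obtain ⟨a1, a2, a3, a4, a5, a6, a7, a8, a9⟩ := hn0 n hn
  set y := Nat.sqrt (Nat.sqrt (H n)) with hy
  obtain ⟨n1, n2⟩ := nice_y (H n)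
  rw [← hy] at n1 n2
  have hlog : Real.log (H n) ≤ 4 * Real.log (y + 1) := by
    have h1 : (H n : ℝ) ≤ ((y : ℝ) + 1) ^ 4 := by exact_mod_cast n2.le
    have h2 : (0 : ℝ) < H n := by exact_mod_cast (by omega : 0 < H n)
    calc Real.log (H n) ≤ Real.log (((y : ℝ) + 1) ^ 4) := Real.log_le_log h2 h1
      _ = _ := by rw [Real.log_pow]; norm_num
  have hlogH : 0 < Real.log (H n) := Real.log_pos (by exact_mod_cast a9)
  have hlogy : 0 < Real.log ((y : ℝ) + 1) := by linarith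
  have hεH := hε0 n
  have htail : L.C * (16 / (ε n * Real.log (y + 1))) ≤ δ / (16 * Λ') := by
    have h1 : 64 * L.C < δ / (16 * Λ') * (ε n * Real.log (H n)) := by
      rwa [div_lt_iff₀' (by positivity)] at a8
    have h2 : δ / (16 * Λ') * (ε n * Real.log (H n)) ≤ δ / (16 * Λ') * (ε n * (4 * Real.log (y + 1))) := by gcongr
    rw [mul_div_assoc', div_le_iff₀ (by positivity)]
    linarith
  -- pointwise bound
  have hpt : ∀ c : ι → ℤ, dist (Y n c) (L.SK (edge_sub hK0) P₀ (redP c)) ≤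
      3 * (δ / (16 * Λ')) + L.DD A R (pr y \ pr P₀) (redP c) := by
    intro c
    rw [ContinuousMap.dist_le (by have := L.DD_nonneg A R (pr y \ pr P₀) (redP c); positivity)]
    intro s
    have b1 := hY n c s
    have hs0 := hK0 s s.2
    have b2 := L.Q_tail (redP c) (s := (ε n : ℂ) + s) hεH a3.le (by
      simp only [Complex.add_re, Complex.ofReal_re]; linarith) a5
    have b3 := hshift (ε n) hεH.le a2 (redP c) s s.2
    have hmem : ((ε n : ℂ) + s) ∈ K' := ⟨(ε n, (s : ℂ)), ⟨⟨hεH.le, a3.le⟩, s.2⟩, rfl⟩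
    have b4 := L.sm_le_DD hR hAH (pr y \ pr P₀) (redP c) (hcov _ hmem)
    have e1 : L.sm (pr y) (redP c) (ε n + s) = L.sm (pr y \ pr P₀) (redP c) (ε n + s) + L.sm (pr P₀) (redP c) (ε n + s) := by
      unfold sm
      exact (Finset.sum_sdiff (pr_mono a6)).symm
    rw [dist_eq_norm]
    have e2 : Y n c s - L.SK (edge_sub hK0) P₀ (redP c) s = (Y n c s - L.Q (redP c) (ε n + s)) +
        ((L.Q (redP c) (ε n + s) - L.sm (pr y) (redP c) (ε n + s)) + (L.sm (pr y \ pr P₀) (redP c) (ε n + s) +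
          (L.sm (pr P₀) (redP c) (ε n + s) - L.sm (pr P₀) (redP c) s))) := by
      rw [e1]
      change Y n c s - L.sm (pr P₀) (redP c) s = _
      ring
    rw [e2]
    have c1 := norm_add_le (Y n c s - L.Q (redP c) (ε n + s))
      ((L.Q (redP c) (ε n + s) - L.sm (pr y) (redP c) (ε n + s)) + (L.sm (pr y \ pr P₀) (redP c) (ε n + s) +
          (L.sm (pr P₀) (redP c) (ε n + s) - L.sm (pr P₀) (redP c) s)))
    have c2 := norm_add_le (L.Q (redP c) (ε n + s) - L.sm (pr y) (redP c) (ε n + s))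
      (L.sm (pr y \ pr P₀) (redP c) (ε n + s) + (L.sm (pr P₀) (redP c) (ε n + s) - L.sm (pr P₀) (redP c) s))
    have c3 := norm_add_le (L.sm (pr y \ pr P₀) (redP c) (ε n + s))
      (L.sm (pr P₀) (redP c) (ε n + s) - L.sm (pr P₀) (redP c) s)
    linarith [b2.trans htail]
  obtain ⟨hDDi, hDD⟩ := DD_samp L (hP n) hR hθ0 hθ hA (y := y) (P := P₀) a5 n1
  have hint1 : Integrable (fun c => G (Y n c)) (P n) :=
    Integrable.of_bound (measurable_of_countable _).aestronglyMeasurable B (ae_of_all _ fun c => hB _)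
  have hint2 : Integrable (fun c => G (L.SK (edge_sub hK0) P₀ (redP c))) (P n) :=
    Integrable.of_bound (measurable_of_countable _).aestronglyMeasurable B (ae_of_all _ fun c => hB _)
  have hint3 : Integrable (fun c => Λ' * (3 * (δ / (16 * Λ')) + L.DD A R (pr y \ pr P₀) (redP c))) (P n) :=
    ((integrable_const _).add hDDi).const_mul _
  have hEBd : ∫ c, Λ' * (3 * (δ / (16 * Λ')) + L.DD A R (pr y \ pr P₀) (redP c)) ∂P n ≤ δ / 4 := by
    rw [integral_const_mul, integral_add (integrable_const _) hDDi, integral_const, probReal_univ, one_smul]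
    calc Λ' * (3 * (δ / (16 * Λ')) + ∫ c, L.DD A R (pr y \ pr P₀) (redP c) ∂P n)
        ≤ Λ' * (3 * (δ / (16 * Λ')) + δ / (16 * Λ')) := by
          gcongr
          exact hDD.trans a7.le
      _ = δ / 4 := by field_simp; ring
  have hle : ∀ c : ι → ℤ, |G (Y n c) - G (L.SK (edge_sub hK0) P₀ (redP c))| ≤
      Λ' * (3 * (δ / (16 * Λ')) + L.DD A R (pr y \ pr P₀) (redP c)) := by
    intro c
    have h1 := hG.dist_le_mul (Y n c) (L.SK (edge_sub hK0) P₀ (redP c))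
    rw [Real.dist_eq] at h1
    refine h1.trans ?_
    have h2 := hpt c
    have h3 : (Λ : ℝ) ≤ Λ' := by rw [hΛ']; linarith
    have h4 := L.DD_nonneg A R (pr y \ pr P₀) (redP c)
    gcongr
  have hd1 : |∫ c, G (Y n c) ∂P n - ∫ c, G (L.SK (edge_sub hK0) P₀ (redP c)) ∂P n| ≤ δ / 4 := by
    rw [← integral_sub hint1 hint2]
    refine (abs_integral_le_integral_abs).trans ((integral_mono (hint1.sub hint2).abs hint3 hle).trans hEBd)
  rw [Real.dist_eq] at a1 hP1 ⊢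
  have t1 := abs_le.mp hd1
  have t2 := abs_lt.mp a1
  have t3 := abs_lt.mp hP1
  rw [abs_lt]
  constructor <;> linarith

/-- **The functional limit theorem.** -/
theorem lim_cont (L : Loc ι M) {K : Set ℂ} (hP : ∀ n, Eqd (P n) (H n)) (hH : Tendsto H atTop atTop) (hK : IsCompact K)
    (hK0 : ∀ s ∈ K, 0 ≤ s.re) {ε : ℕ → ℝ} (hε0 : ∀ n, 0 < ε n)
    (hε : Tendsto ε atTop (𝓝 0)) (hεL : Tendsto (fun n : ℕ => ε n * Real.log (H n)) atTop atTop)
    (Y : ℕ → (ι → ℤ) → C(K, ℂ)) {ρ : ℕ → ℝ} (hρ : Tendsto ρ atTop (𝓝 0))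
    (hY : ∀ n c (s : K), ‖Y n c s - L.Q (redP c) (ε n + s)‖ ≤ ρ n) (G : C(K, ℂ) → ℝ) (hG : Continuous G) {B : ℝ}
    (hB : ∀ x, |G x| ≤ B) :
    Integrable (fun ω => G (L.PhiK K ω)) (mu ι) ∧
    Tendsto (fun n : ℕ => ∫ c, G (Y n c) ∂P n) atTop (𝓝 (∫ ω, G (L.PhiK K ω) ∂mu ι)) := by
  have : CompactSpace K := isCompact_iff_compactSpace.mp hK
  have hprob : ∀ n, IsProbabilityMeasure (P n) := fun n => (hP n).prob
  let _ : MeasurableSpace C(K, ℂ) := borel _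
  have : BorelSpace C(K, ℂ) := ⟨rfl⟩
  have hm : AEMeasurable (L.PhiK K) (mu ι) :=
    aemeasurable_of_tendsto_metrizable_ae atTop (fun P₀ => (L.SK_measurable (edge_sub hK0) P₀).aemeasurable)
      (L.SK_tendsto hK hK0)
  have hint : Integrable (fun ω => G (L.PhiK K ω)) (mu ι) :=
    Integrable.of_bound (hG.measurable.comp_aemeasurable hm).aestronglyMeasurable B (ae_of_all _ fun ω => hB _)
  refine ⟨hint, ?_⟩
  set μs : ℕ → ProbabilityMeasure C(K, ℂ) := fun n => ⟨(P n).map (Y n),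
    Measure.isProbabilityMeasure_map (measurable_of_countable (Y n)).aemeasurable⟩ with hμs
  set ν : ProbabilityMeasure C(K, ℂ) := ⟨(mu ι).map (L.PhiK K), Measure.isProbabilityMeasure_map hm⟩ with hν
  have hmap : ∀ (n : ℕ) (f : C(K, ℂ) → ℝ), Continuous f → ∫ x, f x ∂(μs n : Measure C(K, ℂ)) =
      ∫ c, f (Y n c) ∂P n := by
    intro n f hf
    exact integral_map (measurable_of_countable (Y n)).aemeasurable hf.measurable.aestronglyMeasurable
  have hmapν : ∀ (f : C(K, ℂ) → ℝ), Continuous f → ∫ x, f x ∂(ν : Measure C(K, ℂ)) = ∫ ω, f (L.PhiK K ω) ∂mu ι :=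
    fun f hf => integral_map hm hf.measurable.aestronglyMeasurable
  have hT : Tendsto μs atTop (𝓝 ν) := by
    rw [tendsto_iff_forall_lipschitz_integral_tendsto]
    rintro f ⟨D, hD⟩ ⟨Λ, hΛ⟩
    have hfb : ∀ x, |f x| ≤ D + |f 0| := by
      intro x
      have h1 := hD x 0
      rw [Real.dist_eq] at h1
      have h2 := abs_add_le (f x - f 0) (f 0)
      rw [sub_add_cancel] at h2
      linarith
    have h1 := lim_lip L hP hH hK hK0 hε0 hε hεL Y hρ hY f hfb hΛ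
    rw [hmapν f hΛ.continuous]
    refine h1.congr fun n => ?_
    rw [hmap n f hΛ.continuous]
  rw [ProbabilityMeasure.tendsto_iff_forall_integral_tendsto] at hT
  have h1 := hT (BoundedContinuousFunction.ofNormedAddCommGroup G hG B (fun x => hB x))
  have h2 : Tendsto (fun n => ∫ x, G x ∂(μs n : Measure C(K, ℂ))) atTop (𝓝 (∫ x, G x ∂(ν : Measure C(K, ℂ)))) := h1
  rw [hmapν G hG] at h2
  refine h2.congr fun n => ?_
  rw [hmap n G hG]

/-- The functional limit theorem for any version of the limit. -/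
theorem lim_final (L : Loc ι M) {K : Set ℂ} (hP : ∀ n, Eqd (P n) (H n)) (hH : Tendsto H atTop atTop) (hK : IsCompact K)
    (hK0 : ∀ s ∈ K, 0 ≤ s.re) {ε : ℕ → ℝ} (hε0 : ∀ n, 0 < ε n)
    (hε : Tendsto ε atTop (𝓝 0)) (hεL : Tendsto (fun n : ℕ => ε n * Real.log (H n)) atTop atTop)
    (Y : ℕ → (ι → ℤ) → C(K, ℂ)) {ρ : ℕ → ℝ} (hρ : Tendsto ρ atTop (𝓝 0))
    (hY : ∀ n c (s : K), ‖Y n c s - L.Q (redP c) (ε n + s)‖ ≤ ρ n) (Ψ : Om ι → C(K, ℂ))
    (hΨ : ∀ᵐ ω ∂mu ι, ∀ s : K, Ψ ω s = L.Lam ω s) (G : C(K, ℂ) → ℝ) (hG : Continuous G) {B : ℝ}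
    (hB : ∀ x, |G x| ≤ B) :
    Integrable (fun ω => G (Ψ ω)) (mu ι) ∧
    Tendsto (fun n : ℕ => ∫ c, G (Y n c) ∂P n) atTop (𝓝 (∫ ω, G (Ψ ω) ∂mu ι)) := by
  have h1 := lim_cont L hP hH hK hK0 hε0 hε hεL Y hρ hY G hG hB
  have h2 : (fun ω => G (L.PhiK K ω)) =ᵐ[mu ι] fun ω => G (Ψ ω) := by
    filter_upwards [hΨ, L.ae_cont hK (edge_sub hK0)] with ω hω hc
    congr 1
    ext s
    rw [hω s]
    exact L.PhiK_apply hc s
  refine ⟨h1.1.congr h2, ?_⟩
  rw [← integral_congr_ae h2]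
  exact h1.2

end Run7.h113.FG
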