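import Pool.Agent.Run7.h113.FE.LogB
import Pool.Agent.Run7.h113.FE.Sup
import Pool.Agent.H921R2.TatePole.Base

/-!
# Euler factors at the places of a number field
-/

set_option autoImplicit false

namespace Run7.h113.FG

open Finset Filter Topology NumberField IsDedekindDomain
open Pool.Agent.Y722.HS (EB EM red)
open Run7.h113.FE
open Pool.Agent.H921R2.TatePole (nm two_le_nm below deg nm_eq below_le_nm card_above nm_summable)

section
variable {K : Type} [Field K] [NumberField K]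

variable (K) in
/-- The places above `p`. -/
noncomputable def ab (p : Nat.Primes) : Finset (HeightOneSpectrum (𝓞 K)) :=
  (Finset.univ : Finset {v : HeightOneSpectrum (𝓞 K) // below v = p}).map (Function.Embedding.subtype _)

lemma mem_ab {p : Nat.Primes} {v : HeightOneSpectrum (𝓞 K)} : v ∈ ab K p ↔ below v = p := by
  unfold ab
  simp

lemma card_ab (p : Nat.Primes) : (ab K p).card ≤ Module.finrank ℚ K := card_above p _ fun _ hv => mem_ab.mp hv

lemma nm_pos' (v : HeightOneSpectrum (𝓞 K)) : (0 : ℝ) < nm v := by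
  have := two_le_nm v
  exact_mod_cast (by omega : 0 < nm v)

lemma nm_small (v : HeightOneSpectrum (𝓞 K)) {σ : ℝ} (hσ : -(1 / 2) ≤ σ) : (nm v : ℝ) ^ (-1 - σ) ≤ 0.7072 := by
  have hp2 : (2 : ℝ) ≤ nm v := by exact_mod_cast two_le_nm v
  have hp0 : (0 : ℝ) < nm v := by linarith
  have h1 : (nm v : ℝ) ^ (-1 - σ) ≤ (nm v : ℝ) ^ (-(1 / 2) : ℝ) :=
    Real.rpow_le_rpow_of_exponent_le (by linarith) (by linarith)
  have h2 : (nm v : ℝ) ^ (-(1 / 2) : ℝ) ≤ (2 : ℝ) ^ (-(1 / 2) : ℝ) :=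
    Real.rpow_le_rpow_of_nonpos (by norm_num) hp2 (by norm_num)
  have h3 : (2 : ℝ) ^ (-(1 / 2) : ℝ) ≤ 0.7072 := by
    rw [Real.rpow_neg (by norm_num), ← Real.sqrt_eq_rpow, inv_le_comm₀ (by positivity) (by norm_num)]
    apply Real.le_sqrt_of_sq_le
    norm_num
  linarith

lemma nm_le_below (v : HeightOneSpectrum (𝓞 K)) {σ : ℝ} (hσ : -(1 / 2) < σ) :
    (nm v : ℝ) ^ (-1 - σ) ≤ (((below v : ℕ) : ℝ)) ^ (-1 - σ) := by
  have hp : (0 : ℝ) < ((below v : ℕ) : ℝ) := by exact_mod_cast (below v).2.pos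
  exact Real.rpow_le_rpow_of_nonpos hp (by exact_mod_cast below_le_nm v) (by linarith)

lemma nm_deg_two (v : HeightOneSpectrum (𝓞 K)) (h : deg v ≠ 1) {σ : ℝ} (hσ : -(1 / 2) < σ) :
    (nm v : ℝ) ^ (-1 - σ) ≤ (((below v : ℕ) : ℝ)) ^ (-(3 / 2) - σ) := by
  obtain ⟨h1, h2, _⟩ := nm_eq v
  have hp1 : (1 : ℝ) ≤ ((below v : ℕ) : ℝ) := by exact_mod_cast (below v).2.one_lt.le
  have hd : (2 : ℝ) ≤ deg v := by
    have : 2 ≤ deg v := by omega
    exact_mod_cast this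
  rw [h1]
  push_cast
  rw [← Real.rpow_natCast, ← Real.rpow_mul (by positivity)]
  apply Real.rpow_le_rpow_of_exponent_le hp1
  nlinarith

lemma nterm (v : HeightOneSpectrum (𝓞 K)) {h : ℝ} {a : ℂ} (ha : ‖a‖ ≤ (nm v : ℝ) ^ h) (s : ℂ) :
    ‖a * (nm v : ℂ) ^ (-((h : ℂ) + 1 + s))‖ ≤ (nm v : ℝ) ^ (-1 - s.re) := by
  have hp0 := nm_pos' v
  have e0 : ‖(nm v : ℂ) ^ (-((h : ℂ) + 1 + s))‖ = (nm v : ℝ) ^ (-h + (-1 - s.re)) := by
    rw [Complex.norm_natCast_cpow_of_pos (by exact_mod_cast hp0)]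
    congr 1
    simp only [Complex.neg_re, Complex.add_re, Complex.ofReal_re, Complex.one_re]
    ring
  rw [norm_mul, e0, Real.rpow_add hp0, Real.rpow_neg hp0.le]
  have h2 : (0 : ℝ) < (nm v : ℝ) ^ h := by positivity
  have h3 : (0 : ℝ) < (nm v : ℝ) ^ (-1 - s.re) := by positivity
  calc ‖a‖ * (((nm v : ℝ) ^ h)⁻¹ * (nm v : ℝ) ^ (-1 - s.re)) ≤
        (nm v : ℝ) ^ h * (((nm v : ℝ) ^ h)⁻¹ * (nm v : ℝ) ^ (-1 - s.re)) := by gcongr
    _ = _ := by field_simp

lemma dterm (v : HeightOneSpectrum (𝓞 K)) {h : ℝ} {a : ℂ} (ha : ‖a‖ ≤ (nm v : ℝ) ^ h) :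
    DifferentiableOn ℂ (fun s : ℂ => Complex.log (1 - a * (nm v : ℂ) ^ (-((h : ℂ) + 1 + s)))) HP := by
  have hp0 : (nm v : ℂ) ≠ 0 := by exact_mod_cast (nm_pos' v).ne'
  intro s hs
  have hs' : -(1 / 2) < s.re := hs
  have h1 : ‖a * (nm v : ℂ) ^ (-((h : ℂ) + 1 + s))‖ ≤ 0.7072 := (nterm v ha s).trans (nm_small v hs'.le)
  have h2 : (1 - a * (nm v : ℂ) ^ (-((h : ℂ) + 1 + s))) ∈ Complex.slitPlane := by
    left
    rw [Complex.sub_re, Complex.one_re]
    have := (Complex.abs_re_le_norm (a * (nm v : ℂ) ^ (-((h : ℂ) + 1 + s)))).trans h1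
    have := (abs_le.mp this).2
    linarith
  apply DifferentiableAt.differentiableWithinAt
  refine DifferentiableAt.clog ?_ h2
  refine (differentiableAt_const _).sub (DifferentiableAt.const_mul ?_ _)
  exact DifferentiableAt.const_cpow (by fun_prop) (Or.inl hp0)

end

section
variable (K : Type) [Field K] [NumberField K] (ι : Type) [Fintype ι] [DecidableEq ι]

/-- Local data at the places of `K`, depending on vectors modulo the primes. -/
structure PL (b : ℕ) (h : ℝ) where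
  α : (p : Nat.Primes) → (ι → ZMod p) → HeightOneSpectrum (𝓞 K) → Fin b → ℂ
  bound : ∀ v r j, ‖α (below v) r v j‖ ≤ (nm v : ℝ) ^ h
  D : ℝ
  D0 : 0 ≤ D
  mean : ∀ v, deg v = 1 → ‖EC (below v) (fun r => ∑ j, α (below v) r v j)‖ ≤ D * (nm v : ℝ) ^ (h - 1 / 2)

end

section
variable {K : Type} [Field K] [NumberField K] {ι : Type} [Fintype ι] [DecidableEq ι] {b : ℕ} {h : ℝ}

lemma EC_sum (p : Nat.Primes) {T : Type*} (S : Finset T) (F : T → (ι → ZMod p) → ℂ) :
    EC p (fun r => ∑ t ∈ S, F t r) = ∑ t ∈ S, EC p (F t) := by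
  unfold EC
  rw [Finset.sum_comm, Finset.sum_div]

lemma EC_norm (p : Nat.Primes) (F : (ι → ZMod p) → ℂ) {B : ℝ} (hB : ∀ r, ‖F r‖ ≤ B) : ‖EC p F‖ ≤ B := by
  have hp : (0 : ℝ) < ((p : ℕ) : ℝ) := by exact_mod_cast p.2.pos
  unfold EC
  rw [norm_div, norm_pow, Complex.norm_natCast, div_le_iff₀ (by positivity)]
  refine (norm_sum_le _ _).trans ((Finset.sum_le_sum fun r _ => hB r).trans ?_)
  rw [Finset.sum_const, nsmul_eq_mul, Finset.card_univ, card_vec]
  push_cast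
  rw [mul_comm]

lemma EC_add (p : Nat.Primes) (F G : (ι → ZMod p) → ℂ) : EC p (fun r => F r + G r) = EC p F + EC p G := by
  unfold EC
  rw [Finset.sum_add_distrib, add_div]

lemma EC_mul (p : Nat.Primes) (F : (ι → ZMod p) → ℂ) (x : ℂ) : EC p (fun r => F r * x) = EC p F * x := by
  unfold EC
  rw [← Finset.sum_mul]
  ring

/-- The sum of the logarithms of the Euler factors at one place. -/
noncomputable def lf (a : Fin b → ℂ) (h : ℝ) (v : HeightOneSpectrum (𝓞 K)) (s : ℂ) : ℂ :=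
  ∑ j, -Complex.log (1 - a j * (nm v : ℂ) ^ (-((h : ℂ) + 1 + s)))

lemma lf_norm (v : HeightOneSpectrum (𝓞 K)) {a : Fin b → ℂ} (ha : ∀ j, ‖a j‖ ≤ (nm v : ℝ) ^ h) {s : ℂ}
    (hs : -(1 / 2) ≤ s.re) : ‖lf a h v s‖ ≤ 3 * b * (nm v : ℝ) ^ (-1 - s.re) := by
  unfold lf
  refine (norm_sum_le _ _).trans ?_
  have h1 : ∀ j, ‖-Complex.log (1 - a j * (nm v : ℂ) ^ (-((h : ℂ) + 1 + s)))‖ ≤ 3 * (nm v : ℝ) ^ (-1 - s.re) := by
    intro j
    have h2 := nterm v (ha j) s
    rw [norm_neg]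
    refine (log1 (h2.trans (nm_small v hs))).2.trans ?_
    linarith
  refine (Finset.sum_le_sum fun j _ => h1 j).trans (le_of_eq ?_)
  rw [Finset.sum_const, nsmul_eq_mul, Finset.card_univ, Fintype.card_fin]
  ring

lemma lf_lin (v : HeightOneSpectrum (𝓞 K)) {a : Fin b → ℂ} (ha : ∀ j, ‖a j‖ ≤ (nm v : ℝ) ^ h) {s : ℂ}
    (hs : -(1 / 2) ≤ s.re) : ‖lf a h v s - (∑ j, a j) * (nm v : ℂ) ^ (-((h : ℂ) + 1 + s))‖ ≤
      2 * b * ((nm v : ℝ) ^ (-1 - s.re)) ^ 2 := by
  unfold lf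
  rw [Finset.sum_mul, ← Finset.sum_sub_distrib]
  refine (norm_sum_le _ _).trans ?_
  have h1 : ∀ j, ‖-Complex.log (1 - a j * (nm v : ℂ) ^ (-((h : ℂ) + 1 + s))) -
      a j * (nm v : ℂ) ^ (-((h : ℂ) + 1 + s))‖ ≤ 2 * ((nm v : ℝ) ^ (-1 - s.re)) ^ 2 := by
    intro j
    have h2 := nterm v (ha j) s
    rw [← neg_add', norm_neg]
    refine (log1 (h2.trans (nm_small v hs))).1.trans ?_
    gcongr
  refine (Finset.sum_le_sum fun j _ => h1 j).trans (le_of_eq ?_)
  rw [Finset.sum_const, nsmul_eq_mul, Finset.card_univ, Fintype.card_fin]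
  ring

lemma lf_edge (v : HeightOneSpectrum (𝓞 K)) {a : Fin b → ℂ} (ha : ∀ j, ‖a j‖ ≤ (nm v : ℝ) ^ h) {s : ℂ}
    (hs : 0 ≤ s.re) : ‖lf a h v s‖ ≤ b / ((below v : ℕ) : ℝ) + 2 * b * ((below v : ℕ) : ℝ) ^ (-(3 / 2) : ℝ) := by
  have hp1 : (1 : ℝ) ≤ ((below v : ℕ) : ℝ) := by exact_mod_cast (below v).2.one_lt.le
  have h0 : (nm v : ℝ) ^ (-1 - s.re) ≤ 1 / ((below v : ℕ) : ℝ) := by
    refine (nm_le_below v (by linarith)).trans ?_
    rw [one_div, ← Real.rpow_neg_one]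
    exact Real.rpow_le_rpow_of_exponent_le hp1 (by linarith)
  have h00 : ((nm v : ℝ) ^ (-1 - s.re)) ^ 2 ≤ ((below v : ℕ) : ℝ) ^ (-(3 / 2) : ℝ) := by
    calc ((nm v : ℝ) ^ (-1 - s.re)) ^ 2 ≤ (1 / ((below v : ℕ) : ℝ)) ^ 2 := by
          have := nm_pos' v
          gcongr
      _ = ((below v : ℕ) : ℝ) ^ (-2 : ℝ) := by
          rw [one_div, inv_pow, Real.rpow_neg (by linarith)]
          norm_num
      _ ≤ _ := Real.rpow_le_rpow_of_exponent_le hp1 (by norm_num)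
  unfold lf
  refine (norm_sum_le _ _).trans ?_
  have h1 : ∀ j, ‖-Complex.log (1 - a j * (nm v : ℂ) ^ (-((h : ℂ) + 1 + s)))‖ ≤
      1 / ((below v : ℕ) : ℝ) + 2 * ((below v : ℕ) : ℝ) ^ (-(3 / 2) : ℝ) := by
    intro j
    have h2 := nterm v (ha j) s
    rw [norm_neg]
    set z := a j * (nm v : ℂ) ^ (-((h : ℂ) + 1 + s))
    have h3 := (log1 (h2.trans (nm_small v (by linarith)))).1
    have h4 : ‖Complex.log (1 - z)‖ ≤ ‖Complex.log (1 - z) + z‖ + ‖z‖ := by
      have := norm_sub_le (Complex.log (1 - z) + z) z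
      rwa [add_sub_cancel_right] at this
    have h5 : ‖z‖ ^ 2 ≤ ((nm v : ℝ) ^ (-1 - s.re)) ^ 2 := by gcongr
    linarith
  refine (Finset.sum_le_sum fun j _ => h1 j).trans (le_of_eq ?_)
  rw [Finset.sum_const, nsmul_eq_mul, Finset.card_univ, Fintype.card_fin]
  ring

lemma lf_diff (v : HeightOneSpectrum (𝓞 K)) {a : Fin b → ℂ} (ha : ∀ j, ‖a j‖ ≤ (nm v : ℝ) ^ h) :
    DifferentiableOn ℂ (lf a h v) HP := by
  unfold lf
  exact DifferentiableOn.fun_sum fun j _ => (dterm v (ha j)).fun_neg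

/-- The local functions at the rational primes. -/
noncomputable def PL.loc (L : PL K ι b h) : Loc ι (b * Module.finrank ℚ K) where
  g := fun p r s => ∑ v ∈ ab K p, lf (L.α p r v) h v s
  C := Module.finrank ℚ K * (5 * b + L.D) + 1
  C0 := by
    have := L.D0
    positivity
  diff := fun p r => DifferentiableOn.fun_sum fun v hv => by
    have hv' := mem_ab.mp hv
    subst hv'
    exact lf_diff v (L.bound v r)
  bound := fun p r s hs => by
    have hs' : -(1 / 2) < s.re := hs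
    have hD := L.D0
    have hp : (0 : ℝ) < ((p : ℕ) : ℝ) := by exact_mod_cast p.2.pos
    have h1 : ∀ v ∈ ab K p, ‖lf (L.α p r v) h v s‖ ≤ 3 * b * ((p : ℕ) : ℝ) ^ (-1 - s.re) := by
      intro v hv
      have hv' := mem_ab.mp hv
      subst hv'
      refine (lf_norm v (L.bound v r) hs'.le).trans ?_
      have := nm_le_below v hs'
      gcongr
    refine (norm_sum_le _ _).trans ((Finset.sum_le_sum h1).trans ?_)
    rw [Finset.sum_const, nsmul_eq_mul]
    have h2 : ((ab K p).card : ℝ) ≤ Module.finrank ℚ K := by exact_mod_cast card_ab p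
    have hx : 0 < ((p : ℕ) : ℝ) ^ (-1 - s.re) := by positivity
    have hb : (0 : ℝ) ≤ b := Nat.cast_nonneg b
    have hn : (0 : ℝ) ≤ Module.finrank ℚ K := Nat.cast_nonneg _
    calc ((ab K p).card : ℝ) * (3 * b * ((p : ℕ) : ℝ) ^ (-1 - s.re))
        ≤ Module.finrank ℚ K * (3 * b * ((p : ℕ) : ℝ) ^ (-1 - s.re)) := by gcongr
      _ = (Module.finrank ℚ K * (3 * b)) * ((p : ℕ) : ℝ) ^ (-1 - s.re) := by ring
      _ ≤ _ := by
          gcongr
          have : (Module.finrank ℚ K : ℝ) * (3 * b) ≤ Module.finrank ℚ K * (5 * b + L.D) := by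
            gcongr
            linarith
          linarith
  mean := fun p s hs => by
    have hs' : -(1 / 2) < s.re := hs
    have hD := L.D0
    have hp : (0 : ℝ) < ((p : ℕ) : ℝ) := by exact_mod_cast p.2.pos
    have hp1 : (1 : ℝ) ≤ ((p : ℕ) : ℝ) := by exact_mod_cast p.2.one_lt.le
    have hb : (0 : ℝ) ≤ b := Nat.cast_nonneg b
    have hn : (0 : ℝ) ≤ Module.finrank ℚ K := Nat.cast_nonneg _
    rw [EC_sum p (ab K p) (fun v r => lf (L.α p r v) h v s)]
    have h1 : ∀ v ∈ ab K p, ‖EC p (fun r => lf (L.α p r v) h v s)‖ ≤ (5 * b + L.D) * ((p : ℕ) : ℝ) ^ (-(3 / 2) - s.re) := by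
      intro v hv
      have hv' := mem_ab.mp hv
      subst hv'
      have hx : 0 < ((below v : ℕ) : ℝ) ^ (-(3 / 2) - s.re) := by positivity
      by_cases hd : deg v = 1
      · have hq : (nm v : ℝ) = ((below v : ℕ) : ℝ) := by
          obtain ⟨e1, _, _⟩ := nm_eq v
          rw [e1, hd, pow_one]
        have e1 : EC (below v) (fun r => lf (L.α (below v) r v) h v s) =
            EC (below v) (fun r => lf (L.α (below v) r v) h v s -
              (∑ j, L.α (below v) r v j) * (nm v : ℂ) ^ (-((h : ℂ) + 1 + s))) +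
            EC (below v) (fun r => ∑ j, L.α (below v) r v j) * (nm v : ℂ) ^ (-((h : ℂ) + 1 + s)) := by
          rw [← EC_mul, ← EC_add]
          congr 1
          funext r
          ring
        rw [e1]
        have t1 : ‖EC (below v) (fun r => lf (L.α (below v) r v) h v s -
              (∑ j, L.α (below v) r v j) * (nm v : ℂ) ^ (-((h : ℂ) + 1 + s)))‖ ≤
              2 * b * ((nm v : ℝ) ^ (-1 - s.re)) ^ 2 := EC_norm _ _ fun r => lf_lin v (L.bound v r) hs'.le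
        have t2 : ((nm v : ℝ) ^ (-1 - s.re)) ^ 2 ≤ ((below v : ℕ) : ℝ) ^ (-(3 / 2) - s.re) := by
          rw [hq, ← Real.rpow_natCast, ← Real.rpow_mul hp.le]
          apply Real.rpow_le_rpow_of_exponent_le hp1
          push_cast
          linarith
        have t3 : ‖EC (below v) (fun r => ∑ j, L.α (below v) r v j) * (nm v : ℂ) ^ (-((h : ℂ) + 1 + s))‖ ≤
            L.D * ((below v : ℕ) : ℝ) ^ (-(3 / 2) - s.re) := by
          rw [norm_mul]
          have e2 : ‖(nm v : ℂ) ^ (-((h : ℂ) + 1 + s))‖ = (nm v : ℝ) ^ (-(h + 1 + s.re)) := by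
            have := nm_pos' v
            rw [Complex.norm_natCast_cpow_of_pos (by exact_mod_cast this)]
            congr 1
          rw [e2]
          calc _ ≤ (L.D * (nm v : ℝ) ^ (h - 1 / 2)) * (nm v : ℝ) ^ (-(h + 1 + s.re)) := by
                gcongr
                exact L.mean v hd
            _ = L.D * ((nm v : ℝ) ^ (h - 1 / 2) * (nm v : ℝ) ^ (-(h + 1 + s.re))) := by ring
            _ = _ := by
                rw [← Real.rpow_add (nm_pos' v), hq]
                congr 2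
                ring
        refine (norm_add_le _ _).trans ?_
        have t4 : 2 * b * ((nm v : ℝ) ^ (-1 - s.re)) ^ 2 ≤ 2 * b * ((below v : ℕ) : ℝ) ^ (-(3 / 2) - s.re) := by gcongr
        nlinarith
      · have t1 : ‖EC (below v) (fun r => lf (L.α (below v) r v) h v s)‖ ≤ 3 * b * (nm v : ℝ) ^ (-1 - s.re) :=
          EC_norm _ _ fun r => lf_norm v (L.bound v r) hs'.le
        have t2 := nm_deg_two v hd hs'
        have t3 : 3 * b * (nm v : ℝ) ^ (-1 - s.re) ≤ 3 * b * ((below v : ℕ) : ℝ) ^ (-(3 / 2) - s.re) := by gcongr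
        nlinarith
    refine (norm_sum_le _ _).trans ((Finset.sum_le_sum h1).trans ?_)
    rw [Finset.sum_const, nsmul_eq_mul]
    have h2 : ((ab K p).card : ℝ) ≤ Module.finrank ℚ K := by exact_mod_cast card_ab p
    have hx : 0 < ((p : ℕ) : ℝ) ^ (-(3 / 2) - s.re) := by positivity
    calc ((ab K p).card : ℝ) * ((5 * b + L.D) * ((p : ℕ) : ℝ) ^ (-(3 / 2) - s.re))
        ≤ Module.finrank ℚ K * ((5 * b + L.D) * ((p : ℕ) : ℝ) ^ (-(3 / 2) - s.re)) := by gcongr
      _ ≤ _ := by nlinarith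
  edge := fun p r s hs => by
    have hD := L.D0
    have hp : (0 : ℝ) < ((p : ℕ) : ℝ) := by exact_mod_cast p.2.pos
    have hb : (0 : ℝ) ≤ b := Nat.cast_nonneg b
    have hn : (0 : ℝ) ≤ Module.finrank ℚ K := Nat.cast_nonneg _
    have h1 : ∀ v ∈ ab K p, ‖lf (L.α p r v) h v s‖ ≤ b / ((p : ℕ) : ℝ) + 2 * b * ((p : ℕ) : ℝ) ^ (-(3 / 2) : ℝ) := by
      intro v hv
      have hv' := mem_ab.mp hv
      subst hv'
      exact lf_edge v (L.bound v r) hs
    refine (norm_sum_le _ _).trans ((Finset.sum_le_sum h1).trans ?_)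
    rw [Finset.sum_const, nsmul_eq_mul]
    have h2 : ((ab K p).card : ℝ) ≤ Module.finrank ℚ K := by exact_mod_cast card_ab p
    have hx : 0 < ((p : ℕ) : ℝ) ^ (-(3 / 2) : ℝ) := by positivity
    calc ((ab K p).card : ℝ) * (b / ((p : ℕ) : ℝ) + 2 * b * ((p : ℕ) : ℝ) ^ (-(3 / 2) : ℝ))
        ≤ Module.finrank ℚ K * (b / ((p : ℕ) : ℝ) + 2 * b * ((p : ℕ) : ℝ) ^ (-(3 / 2) : ℝ)) := by gcongr
      _ = b * Module.finrank ℚ K / ((p : ℕ) : ℝ) + Module.finrank ℚ K * (2 * b) * ((p : ℕ) : ℝ) ^ (-(3 / 2) : ℝ) := by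
          ring
      _ ≤ _ := by
          gcongr
          have : (Module.finrank ℚ K : ℝ) * (2 * b) ≤ Module.finrank ℚ K * (5 * b + L.D) := by
            gcongr
            linarith
          linarith

end

end Run7.h113.FG
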