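import Pool.Agent.Run7.h113.FE.Tl2
import Pool.Agent.Run7.h113.FE.Out

/-!
# Integer vectors which are nearly uniformly distributed modulo the integers up to `2 H + 1`
-/

set_option autoImplicit false

namespace Run7.h113.FG

open Finset MeasureTheory ProbabilityTheory Filter Topology
open Pool.Agent.Y722.HS (EB EM red box IH cnt_one_mod)
open Run7.h113.FE
open scoped ENNReal NNReal

section
variable {ι : Type} [Fintype ι] [DecidableEq ι]

/-- A random integer vector which is nearly uniformly distributed modulo all integers up to `2 H + 1`. -/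
structure Eqd (P : Measure (ι → ℤ)) (H : ℕ) : Prop where
  prob : IsProbabilityMeasure P
  fin : ∀ (S : Finset Nat.Primes) (F : Om ι → ℝ), Dep S F → NN S ≤ 2 * H + 1 →
    |∫ c, F (redP c) ∂P - ∫ ω, F ω ∂mu ι| ≤ 2 ^ Fintype.card ι * NN S / (2 * H + 1) * ∫ ω, |F ω| ∂mu ι

/-- The box with the sides `N i`. -/
noncomputable def gbox (N : ι → ℕ) : Finset (ι → ℤ) := Fintype.piFinset fun i => IH (N i)

/-- The mean value over the box. -/
noncomputable def gm (N : ι → ℕ) (f : (ι → ℤ) → ℝ) : ℝ := (∑ c ∈ gbox N, f c) / ((gbox N).card : ℝ)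

/-- The uniform measure on the box. -/
noncomputable def gbx (N : ι → ℕ) : Measure (ι → ℤ) :=
  (((gbox N).card : ℝ≥0∞))⁻¹ • ∑ c ∈ gbox N, Measure.dirac c

lemma card_gbox (N : ι → ℕ) : (gbox N).card = ∏ i, (2 * N i + 1) := by
  unfold gbox IH
  rw [Fintype.card_piFinset]
  refine Finset.prod_congr rfl fun i _ => ?_
  rw [Int.card_Icc]
  omega

lemma card_gbox_pos (N : ι → ℕ) : 0 < (gbox N).card := by
  rw [card_gbox]
  exact Finset.prod_pos fun i _ => by omega

instance prob_gbx (N : ι → ℕ) : IsProbabilityMeasure (gbx N) := by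
  constructor
  unfold gbx
  rw [Measure.smul_apply, Measure.finsetSum_apply]
  simp only [measure_univ, Finset.sum_const, nsmul_eq_mul, mul_one, smul_eq_mul]
  rw [ENNReal.inv_mul_cancel]
  · exact_mod_cast (card_gbox_pos N).ne'
  · exact ENNReal.natCast_ne_top _

lemma integral_gbx (N : ι → ℕ) (f : (ι → ℤ) → ℝ) : ∫ c, f c ∂gbx N = gm N f := by
  unfold gbx gm
  rw [integral_smul_measure, integral_finsetSum_measure]
  · simp only [integral_dirac, smul_eq_mul, ENNReal.toReal_inv, ENNReal.toReal_natCast]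
    rw [div_eq_inv_mul]
  · intro c _
    exact integrable_dirac (by simp)

lemma integrable_gbx {E : Type*} [NormedAddCommGroup E] (N : ι → ℕ) (f : (ι → ℤ) → E) : Integrable f (gbx N) := by
  unfold gbx
  refine Integrable.smul_measure ?_ (by
    apply ENNReal.inv_ne_top.mpr
    exact_mod_cast (card_gbox_pos N).ne')
  rw [integrable_finsetSum_measure]
  intro c _
  exact integrable_dirac (by simp)

lemma prod_close (s : Finset ι) (x : ι → ℝ) (L τ : ℝ) (hL : 0 ≤ L) (hτ : 0 ≤ τ)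
    (hx : ∀ i ∈ s, 0 ≤ x i) (h : ∀ i ∈ s, |x i - L| ≤ τ * L) :
    0 ≤ ∏ i ∈ s, x i ∧ ∏ i ∈ s, x i ≤ ((1 + τ) * L) ^ s.card ∧
      |∏ i ∈ s, x i - L ^ s.card| ≤ ((1 + τ) ^ s.card - 1) * L ^ s.card := by
  induction s using Finset.induction_on with
  | empty => simp
  | insert a s ha ih =>
    obtain ⟨h1, h2, h3⟩ := ih (fun i hi => hx i (Finset.mem_insert_of_mem hi))
      (fun i hi => h i (Finset.mem_insert_of_mem hi))
    have hxa := hx a (Finset.mem_insert_self a s)
    have ha1 := h a (Finset.mem_insert_self a s)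
    have hxa2 : x a ≤ (1 + τ) * L := by have := (abs_le.mp ha1).2; linarith
    rw [Finset.prod_insert ha, Finset.card_insert_of_notMem ha]
    refine ⟨mul_nonneg hxa h1, ?_, ?_⟩
    · rw [pow_succ, mul_comm]
      gcongr
    · have e : x a * ∏ i ∈ s, x i - L ^ (s.card + 1) =
          (x a - L) * ∏ i ∈ s, x i + L * (∏ i ∈ s, x i - L ^ s.card) := by ring
      rw [e]
      refine (abs_add_le _ _).trans ?_
      rw [abs_mul, abs_mul, abs_of_nonneg h1, abs_of_nonneg hL]
      have h4 : |x a - L| * ∏ i ∈ s, x i ≤ (τ * L) * ((1 + τ) * L) ^ s.card := by gcongr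
      have h5 : L * |∏ i ∈ s, x i - L ^ s.card| ≤ L * (((1 + τ) ^ s.card - 1) * L ^ s.card) := by gcongr
      calc _ ≤ _ := add_le_add h4 h5
        _ = _ := by rw [mul_pow]; ring

/-- Equidistribution of the box modulo `Q`. -/
lemma gm_near (Q H : ℕ) [NeZero Q] (hQ : Q ≤ 2 * H + 1) (N : ι → ℕ) (hN : ∀ i, H ≤ N i) (g : (ι → ZMod Q) → ℝ) :
    |gm N (fun c => g (red Q c)) - EM Q g| ≤
      2 ^ Fintype.card ι * Q / (2 * H + 1) * EM Q (fun r => |g r|) := by
  classical
  have hQ0 : (0 : ℝ) < Q := by exact_mod_cast Nat.pos_of_ne_zero (NeZero.ne Q)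
  have hM0 : (0 : ℝ) < 2 * H + 1 := by positivity
  set τ : ℝ := (Q : ℝ) / (2 * H + 1) with hτ
  have hτ0 : 0 ≤ τ := by positivity
  have hτ1 : τ ≤ 1 := by
    rw [hτ, div_le_one hM0]
    exact_mod_cast hQ
  set n : (i : ι) → ZMod Q → ℝ := fun i r => ((#{z ∈ IH (N i) | ((z : ℤ) : ZMod Q) = r} : ℕ) : ℝ) with hn
  set w : (i : ι) → ZMod Q → ℝ := fun i r => n i r / (2 * N i + 1) with hw
  have hcard : ((gbox N).card : ℝ) = ∏ i, (2 * (N i : ℝ) + 1) := by
    rw [card_gbox]; push_cast; rfl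
  have hfib : ∀ r : ι → ZMod Q, ((#{c ∈ gbox N | red Q c = r} : ℕ) : ℝ) = ∏ i, n i (r i) := by
    intro r
    rw [hn]
    push_cast
    norm_cast
    rw [← Fintype.card_piFinset]
    congr 1
    ext c
    simp only [gbox, Finset.mem_filter, Fintype.mem_piFinset, red, funext_iff]
    exact forall_and.symm
  have hwr : ∀ r : ι → ZMod Q, |∏ i, w i (r i) - (1 / (Q : ℝ)) ^ Fintype.card ι| ≤
      2 ^ Fintype.card ι * τ * (1 / (Q : ℝ)) ^ Fintype.card ι := by
    intro r
    have h1 := (prod_close Finset.univ (fun i => w i (r i)) (1 / Q) τ (by positivity) hτ0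
      (fun i _ => by rw [hw, hn]; positivity) (fun i _ => by
        have h2 := cnt_one_mod (N i) Q (r i)
        have hHi : (0 : ℝ) < 2 * N i + 1 := by positivity
        have e : w i (r i) - 1 / Q = (n i (r i) - (2 * N i + 1) / Q) / (2 * N i + 1) := by
          rw [hw]; field_simp
        rw [e, abs_div, abs_of_pos hHi, div_le_iff₀ hHi]
        refine h2.trans ?_
        rw [hτ]
        have h3 : (H : ℝ) ≤ N i := by exact_mod_cast hN i
        have h4 : (Q : ℝ) / (2 * H + 1) * (1 / Q) * (2 * N i + 1) = (2 * N i + 1) / (2 * H + 1) := by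
          field_simp
        rw [h4, le_div_iff₀ hM0]
        linarith)).2.2
    rw [Finset.card_univ] at h1
    refine h1.trans ?_
    have h5 := Pool.Agent.Y722.HS.pow_bd (Fintype.card ι) τ hτ0 hτ1
    have h6 : (1 + τ) ^ Fintype.card ι - 1 ≤ 2 ^ Fintype.card ι * τ := by nlinarith
    gcongr
  have e1 : gm N (fun c => g (red Q c)) = ∑ r : ι → ZMod Q, (∏ i, w i (r i)) * g r := by
    unfold gm
    rw [← Finset.sum_fiberwise' (gbox N) (red Q) g, Finset.sum_div]
    refine Finset.sum_congr rfl fun r _ => ?_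
    rw [Finset.sum_const, nsmul_eq_mul]
    have h1 := hfib r
    rw [hcard, hw, Finset.prod_div_distrib, h1]
    ring
  have e2 : EM Q g = ∑ r : ι → ZMod Q, (1 / (Q : ℝ)) ^ Fintype.card ι * g r := by
    unfold EM
    rw [← Finset.mul_sum, one_div, inv_pow, div_eq_inv_mul]
  have e3 : EM Q (fun r => |g r|) = ∑ r : ι → ZMod Q, (1 / (Q : ℝ)) ^ Fintype.card ι * |g r| := by
    unfold EM
    rw [← Finset.mul_sum, one_div, inv_pow, div_eq_inv_mul]
  rw [e1, e2, e3, ← Finset.sum_sub_distrib, Finset.mul_sum]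
  refine (Finset.abs_sum_le_sum_abs _ _).trans (Finset.sum_le_sum fun r _ => ?_)
  rw [← sub_mul, abs_mul]
  calc _ ≤ (2 ^ Fintype.card ι * τ * (1 / (Q : ℝ)) ^ Fintype.card ι) * |g r| :=
        mul_le_mul_of_nonneg_right (hwr r) (abs_nonneg _)
    _ = _ := by rw [hτ]; ring

lemma crt_gen {S : Finset Nat.Primes} {F : Om ι → ℝ} (h : Dep S F) (c : ι → ℤ) :
    F (redP c) = F (FE.ext S (crt S (red (NN S) c))) := by
  rw [crt_red, h.eq]

/-- **The boxes.** -/
theorem eqd_box (H : ℕ) (N : ι → ℕ) (hN : ∀ i, H ≤ N i) : Eqd (gbx N) H := by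
  refine ⟨inferInstance, fun S F hF hS => ?_⟩
  have h1 := gm_near (NN S) H hS N hN (fun r => F (FE.ext S (crt S r)))
  rw [EM_crt S fun r => F (FE.ext S r), EM_crt S fun r => |F (FE.ext S r)|] at h1
  simp only [hF.eq] at h1
  rw [integral_gbx]
  simp only [crt_gen hF]
  exact h1

lemma dep_one {E : Type*} (p : Nat.Primes) (f : (ι → ZMod p) → E) : Dep {p} (fun ω : Om ι => f (ω p)) := by
  intro ω ω' h
  change f (ω p) = f (ω' p)
  rw [h p (Finset.mem_singleton_self p)]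

lemma NN_pair {p q : Nat.Primes} (h : p ≠ q) : NN {p, q} = (p : ℕ) * (q : ℕ) := by
  unfold NN
  rw [Finset.prod_coe_sort {p, q} (fun p : Nat.Primes => (p : ℕ)), Finset.prod_pair h]

lemma Eqd.rnd {P : Measure (ι → ℤ)} {H : ℕ} (h : Eqd P H) :
    Rnd P redP (2 ^ Fintype.card ι / (2 * H + 1)) (2 * H + 1) := by
  refine ⟨h.prob, measurable_redP, by positivity, fun p q hpq hY f g => ?_⟩
  have hd : Dep {p, q} (fun ω : Om ι => f (ω p) * g (ω q)) := by
    intro ω ω' h
    change f (ω p) * g (ω q) = f (ω' p) * g (ω' q)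
    rw [h p (by simp), h q (by simp)]
  have h1 := h.fin {p, q} _ hd (by rw [NN_pair hpq]; exact_mod_cast hY)
  rw [NN_pair hpq] at h1
  have hr := (rnd_mu (ι := ι) (((p : ℕ) : ℝ) * ((q : ℕ) : ℝ))).two p q hpq le_rfl
  have h2 := hr f g
  have h3 := hr (fun r => |f r|) (fun r => |g r|)
  simp only [zero_mul, abs_nonpos_iff, sub_eq_zero] at h2 h3
  simp only [abs_mul] at h1
  rw [h2, h3] at h1
  refine h1.trans (le_of_eq ?_)
  push_cast
  ring

lemma Eqd.le {P : Measure (ι → ℤ)} {H : ℕ} (h : Eqd P H) {S : Finset Nat.Primes} {F : Om ι → ℝ} (hF : Dep S F)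
    (h0 : ∀ ω, 0 ≤ F ω) (hS : NN S ≤ 2 * H + 1) :
    ∫ c, F (redP c) ∂P ≤ 2 ^ (Fintype.card ι + 1) * ∫ ω, F ω ∂mu ι := by
  have h1 := (abs_le.mp (h.fin S F hF hS)).2
  have h2 : ∀ ω, |F ω| = F ω := fun ω => abs_of_nonneg (h0 ω)
  simp only [h2] at h1
  have h3 : 0 ≤ ∫ ω, F ω ∂mu ι := integral_nonneg h0
  have hS' : ((NN S : ℕ) : ℝ) ≤ 2 * H + 1 := by exact_mod_cast hS
  have h4 : (2 : ℝ) ^ Fintype.card ι * NN S / (2 * H + 1) ≤ 2 ^ Fintype.card ι := by
    rw [div_le_iff₀ (by positivity)]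
    gcongr
  have h5 : (2 : ℝ) ^ Fintype.card ι * NN S / (2 * H + 1) * ∫ ω, F ω ∂mu ι ≤ 2 ^ Fintype.card ι * ∫ ω, F ω ∂mu ι := by
    gcongr
  have h6 : (1 : ℝ) ≤ 2 ^ Fintype.card ι := one_le_pow₀ (by norm_num)
  rw [pow_succ]
  nlinarith

/-- Convergence of the mean values of the functions which depend on finitely many primes. -/
lemma eqd_tendsto {P : ℕ → Measure (ι → ℤ)} {H : ℕ → ℕ} (h : ∀ n, Eqd (P n) (H n)) (hH : Tendsto H atTop atTop)
    {S : Finset Nat.Primes} {F : Om ι → ℝ} (hF : Dep S F) :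
    Tendsto (fun n => ∫ c, F (redP c) ∂P n) atTop (𝓝 (∫ ω, F ω ∂mu ι)) := by
  rw [tendsto_iff_dist_tendsto_zero]
  have h2 : ∀ᶠ n : ℕ in atTop, dist (∫ c, F (redP c) ∂P n) (∫ ω, F ω ∂mu ι) ≤
      2 ^ Fintype.card ι * NN S * (∫ ω, |F ω| ∂mu ι) / (2 * H n + 1) := by
    filter_upwards [hH.eventually_ge_atTop (NN S)] with n hn
    refine ((h n).fin S F hF (by omega)).trans (le_of_eq ?_)
    ring
  refine squeeze_zero' (Eventually.of_forall fun n => dist_nonneg) h2 ?_
  have h3 : Tendsto (fun n : ℕ => (2 * (H n : ℝ) + 1)) atTop atTop :=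
    tendsto_atTop_add_const_right _ _ ((tendsto_natCast_atTop_atTop.comp hH).const_mul_atTop two_pos)
  exact h3.const_div_atTop _

end

end Run7.h113.FG
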